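import Pool.Agent.Run7.h34.OK.Alt

/-! Slots: quotients of monomials as products. -/

set_option autoImplicit false

namespace Run7.h34.OK

open Finset MvPolynomial

variable {n : ℕ}

/-- slots -/
theorem slots (X : Finset (Pr n)) (K : ℕ) {i j : Fin (n + 1)} {e : ℕ} {k : Pr n → ℤ}
    (hk : ∀ x ∈ X, |k x| ≤ (K : ℤ)) (hQ : Qt X i j e k) :
    ∃ a b : {x // x ∈ X} × Fin K → Fin (n + 1) →₀ ℕ, (∀ t, a t = t.1.1.1 ∨ a t = t.1.1.2) ∧
      (∀ t, b t = t.1.1.1 ∨ b t = t.1.1.2) ∧
      ∀ l, ∑ t, a t l + e * (if l = j then 1 else 0) = ∑ t, b t l + e * (if l = i then 1 else 0) := by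
  classical
  refine ⟨fun t => if (t.2 : ℕ) < (k t.1).natAbs then (if 0 < k t.1 then t.1.1.1 else t.1.1.2)
      else t.1.1.1,
    fun t => if (t.2 : ℕ) < (k t.1).natAbs then (if 0 < k t.1 then t.1.1.2 else t.1.1.1)
      else t.1.1.1, ?_, ?_, ?_⟩
  · intro t
    dsimp only
    split_ifs <;> simp
  · intro t
    dsimp only
    split_ifs <;> simp
  · intro l
    have key : ∀ x : {x // x ∈ X}, ∑ s : Fin K,
        ((((if (s : ℕ) < (k x).natAbs then (if 0 < k x then x.1.1 else x.1.2) else x.1.1) l : ℕ) : ℤ)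
          - (((if (s : ℕ) < (k x).natAbs then (if 0 < k x then x.1.2 else x.1.1) else x.1.1) l : ℕ) : ℤ))
        = k x * ((x.1.1 l : ℤ) - x.1.2 l) := by
      intro x
      have h1 : ∀ s : Fin K, ((((if (s : ℕ) < (k x).natAbs then (if 0 < k x then x.1.1 else x.1.2)
          else x.1.1) l : ℕ) : ℤ) - (((if (s : ℕ) < (k x).natAbs then
            (if 0 < k x then x.1.2 else x.1.1) else x.1.1) l : ℕ) : ℤ)) =
          (if (s : ℕ) < (k x).natAbs then (1 : ℤ) else 0) *
            ((k x).sign * ((x.1.1 l : ℤ) - x.1.2 l)) := by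
        intro s
        rcases lt_trichotomy (k x) 0 with h | h | h
        · rw [Int.sign_eq_neg_one_of_neg h]
          split_ifs <;> first | omega | ring
        · rw [h]
          simp
        · rw [Int.sign_eq_one_of_pos h]
          split_ifs <;> ring
      rw [Finset.sum_congr rfl fun s _ => h1 s, ← Finset.sum_mul]
      have h2 : ∑ s : Fin K, (if (s : ℕ) < (k x).natAbs then (1 : ℤ) else 0) = (k x).natAbs := by
        rw [Fin.sum_univ_eq_sum_range (fun s => if s < (k x).natAbs then (1 : ℤ) else 0) K,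
          ← Finset.sum_filter]
        have h3 : (k x).natAbs ≤ K := by
          have := hk x x.2
          rw [Int.abs_eq_natAbs] at this
          exact_mod_cast this
        have h4 : (Finset.range K).filter (fun s => s < (k x).natAbs) =
            Finset.range (k x).natAbs := by
          ext s
          simp only [Finset.mem_filter, Finset.mem_range]
          omega
        rw [h4]
        simp
      rw [h2, ← mul_assoc, mul_comm (((k x).natAbs : ℕ) : ℤ), Int.sign_mul_natAbs]
    have h2 : ∑ t : {x // x ∈ X} × Fin K,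
        ((((if (t.2 : ℕ) < (k t.1).natAbs then (if 0 < k t.1 then t.1.1.1 else t.1.1.2)
          else t.1.1.1) l : ℕ) : ℤ)
          - (((if (t.2 : ℕ) < (k t.1).natAbs then (if 0 < k t.1 then t.1.1.2 else t.1.1.1)
            else t.1.1.1) l : ℕ) : ℤ))
        = (e : ℤ) * ((if l = i then 1 else 0) - (if l = j then 1 else 0)) := by
      rw [Fintype.sum_prod_type, Finset.sum_congr rfl fun x _ => key x, hQ.2 l]
      exact Finset.sum_coe_sort X (fun x => k x * ((x.1 l : ℤ) - x.2 l))
    rw [Finset.sum_sub_distrib] at h2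
    have h3 : ((∑ t : {x // x ∈ X} × Fin K, (if (t.2 : ℕ) < (k t.1).natAbs then
        (if 0 < k t.1 then t.1.1.1 else t.1.1.2) else t.1.1.1) l + e * (if l = j then 1 else 0) : ℕ) : ℤ)
        = ((∑ t : {x // x ∈ X} × Fin K, (if (t.2 : ℕ) < (k t.1).natAbs then
        (if 0 < k t.1 then t.1.1.2 else t.1.1.1) else t.1.1.1) l
          + e * (if l = i then 1 else 0) : ℕ) : ℤ) := by
      push_cast
      linarith
    exact_mod_cast h3

theorem homog_deg {R : Type*} [CommSemiring R] {P : MvPolynomial (Fin (n + 1)) R} {e : ℕ}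
    (hP : P.IsHomogeneous e)
    {α : Fin (n + 1) →₀ ℕ} (h : P.coeff α ≠ 0) : ∑ l, α l = e := by
  have := hP h
  rw [Finsupp.weight_apply, Finsupp.sum_fintype _ _ (by simp)] at this
  simpa using this

end Run7.h34.OK
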