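import Pool.Agent.Q72.OK.Def
import Pool.Agent.N449.SP.UnitNF
import Pool.Agent.Run7.h34.OK.Slots

/-!
Project OK, job A1: finiteness of the integral points if there are no monomial curves.
-/

set_option autoImplicit false

namespace Run7.h34.OK

open Finset MvPolynomial Pool.Agent.Q72.OK
open Pool.Agent.N449.SP (UE Pm ue_numberField ue_ratio)
open scoped NumberField LinearAlgebra.Projectivization

variable {n : ℕ}

/-- the value of a monomial -/
def mon {k : Type*} [Field k] (y : Fin (n + 1) → k) (α : Fin (n + 1) →₀ ℕ) : k := ∏ l, y l ^ α l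

/-- composition of a form with a linear map -/
noncomputable def lsub {R k : Type*} [CommRing R] [Field k] (φ : R →+* k)
    (S : (Fin (n + 1) → k) ≃ₗ[k] (Fin (n + 1) → k)) (F : MvPolynomial (Fin (n + 1)) R) :
    MvPolynomial (Fin (n + 1)) k :=
  eval₂ (C.comp φ) (fun a => ∑ b, C (S (Pi.single b 1) a) * X b) F

theorem eval_lsub {R k : Type*} [CommRing R] [Field k] (φ : R →+* k)
    (S : (Fin (n + 1) → k) ≃ₗ[k] (Fin (n + 1) → k)) (F : MvPolynomial (Fin (n + 1)) R)
    (v : Fin (n + 1) → k) : eval v (lsub φ S F) = eval₂ φ (S v) F := by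
  unfold lsub
  rw [← coe_eval₂Hom, ← RingHom.comp_apply]
  have h : (eval v).comp (eval₂Hom (C.comp φ) fun a => ∑ b, C (S (Pi.single b 1) a) * X b) =
      eval₂Hom φ (S v) := by
    apply MvPolynomial.ringHom_ext
    · intro r
      simp
    · intro a
      simp only [RingHom.comp_apply, coe_eval₂Hom, eval₂_X, map_sum, map_mul, eval_C, eval_X]
      have h1 : v = ∑ b, v b • (Pi.single b (1 : k) : Fin (n + 1) → k) := by
        funext l
        simp [Finset.sum_apply, Pi.single_apply]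
      conv_rhs => rw [h1, map_sum]
      rw [Finset.sum_apply]
      refine Finset.sum_congr rfl fun b _ => ?_
      rw [map_smul, Pi.smul_apply, smul_eq_mul, mul_comm]
  rw [h]
  rfl

theorem lsub_homog {R k : Type*} [CommRing R] [Field k] (φ : R →+* k)
    (S : (Fin (n + 1) → k) ≃ₗ[k] (Fin (n + 1) → k)) {F : MvPolynomial (Fin (n + 1)) R} {e : ℕ}
    (hF : F.IsHomogeneous e) : (lsub φ S F).IsHomogeneous e := by
  unfold lsub
  have := hF.eval₂ (C.comp φ) (fun a => ∑ b, C (S (Pi.single b 1) a) * X b) (n := 1)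
    (fun r => isHomogeneous_C _ _) (fun a => IsHomogeneous.sum _ _ _ fun b _ => by
      have := (isHomogeneous_C (Fin (n + 1)) (S (Pi.single b 1) a)).mul (isHomogeneous_X k b)
      rwa [zero_add] at this)
  rwa [one_mul] at this

theorem map_lsub {R k E : Type*} [CommRing R] [Field k] [Field E] (φ : R →+* k) (τ : k →+* E)
    (S : (Fin (n + 1) → k) ≃ₗ[k] (Fin (n + 1) → k)) (S' : (Fin (n + 1) → E) ≃ₗ[E] (Fin (n + 1) → E))
    (hS : ∀ v : Fin (n + 1) → k, (S' fun j => τ (v j)) = fun j => τ (S v j))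
    (F : MvPolynomial (Fin (n + 1)) R) : (lsub φ S F).map τ = lsub (τ.comp φ) S' F := by
  unfold lsub
  rw [← coe_eval₂Hom, ← coe_eval₂Hom, ← RingHom.comp_apply]
  congr 1
  apply MvPolynomial.ringHom_ext
  · intro r
    simp
  · intro a
    simp only [RingHom.comp_apply, coe_eval₂Hom, eval₂_X, map_sum, map_mul, map_C, map_X]
    refine Finset.sum_congr rfl fun b _ => ?_
    have h1 := congrFun (hS (Pi.single b 1)) a
    have h2 : (fun j => τ ((Pi.single b (1 : k) : Fin (n + 1) → k) j)) = Pi.single b 1 := by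
      funext j
      by_cases h : j = b
      · subst h; simp
      · simp [h]
    rw [h2] at h1
    rw [h1]

/-- points moved by a weight -/
theorem eval_weight {k E : Type*} [Field k] [Field E] (τ : k →+* E)
    (P : MvPolynomial (Fin (n + 1)) k) (y : Fin (n + 1) → k) (w : Fin (n + 1) → ℕ)
    (h : ∀ r, ∑ α ∈ P.support with ∑ l, w l * α l = r, P.coeff α * mon y α = 0) (t : E) :
    eval (fun l => τ (y l) * t ^ w l) (P.map τ) = 0 := by
  classical
  rw [eval_map, eval₂_eq']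
  have h1 : ∀ α ∈ P.support, τ (P.coeff α) * ∏ l, (τ (y l) * t ^ w l) ^ α l =
      τ (P.coeff α * mon y α) * t ^ (∑ l, w l * α l) := by
    intro α _
    unfold mon
    rw [← Finset.prod_pow_eq_pow_sum, map_mul, map_prod, mul_assoc, ← Finset.prod_mul_distrib]
    congr 1
    refine Finset.prod_congr rfl fun l _ => ?_
    rw [mul_pow, pow_mul, map_pow]
  rw [Finset.sum_congr rfl h1, ← Finset.sum_fiberwise_of_maps_to (g := fun α : Fin (n + 1) →₀ ℕ =>
    ∑ l, w l * α l) (t := P.support.image fun α => ∑ l, w l * α l)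
    (fun α hα => Finset.mem_image_of_mem _ hα)]
  apply Finset.sum_eq_zero
  intro r _
  have h2 : ∀ α ∈ P.support.filter (fun α => ∑ l, w l * α l = r),
      τ (P.coeff α * mon y α) * t ^ (∑ l, w l * α l) = τ (P.coeff α * mon y α) * t ^ r := by
    intro α hα
    rw [(Finset.mem_filter.1 hα).2]
  rw [Finset.sum_congr rfl h2, ← Finset.sum_mul, ← map_sum, h r, map_zero, zero_mul]

theorem mon_quot {k : Type*} [Field k] {T : Type} [Fintype T] (y : Fin (n + 1) → k)
    {i j : Fin (n + 1)} {e : ℕ} {a b : T → Fin (n + 1) →₀ ℕ}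
    (hab : ∀ l, ∑ t, a t l + e * (if l = j then 1 else 0) =
      ∑ t, b t l + e * (if l = i then 1 else 0))
    (hj : y j ≠ 0) (hb : ∀ t, mon y (b t) ≠ 0) :
    (y i / y j) ^ e = ∏ t, mon y (a t) / mon y (b t) := by
  classical
  have hprod : ∀ (a : T → Fin (n + 1) →₀ ℕ), ∏ t, mon y (a t) = ∏ l, y l ^ (∑ t, a t l) := by
    intro a
    unfold mon
    rw [Finset.prod_comm]
    refine Finset.prod_congr rfl fun l _ => ?_
    rw [Finset.prod_pow_eq_pow_sum]
  have hpow : ∀ (a : T → Fin (n + 1) →₀ ℕ) (j : Fin (n + 1)),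
      ∏ l, y l ^ (∑ t, a t l + e * (if l = j then 1 else 0)) =
        (∏ l, y l ^ (∑ t, a t l)) * y j ^ e := by
    intro a j
    have : ∀ l, y l ^ (∑ t, a t l + e * (if l = j then 1 else 0)) =
        y l ^ (∑ t, a t l) * (if l = j then y l ^ e else 1) := by
      intro l
      rw [pow_add]
      congr 1
      split_ifs with h <;> simp
    rw [Finset.prod_congr rfl fun l _ => this l, Finset.prod_mul_distrib]
    simp
  have h2 : (∏ t, mon y (a t)) * y j ^ e = (∏ t, mon y (b t)) * y i ^ e := by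
    rw [hprod, hprod, ← hpow a j, ← hpow b i]
    exact Finset.prod_congr rfl fun l _ => by rw [hab l]
  have h3 : ∏ t, mon y (b t) ≠ 0 := Finset.prod_ne_zero_iff.2 fun t _ => hb t
  rw [Finset.prod_div_distrib, div_pow, div_eq_div_iff (pow_ne_zero _ hj) h3]
  linear_combination -h2

theorem roots_fin {k : Type*} [Field k] {W : Set k} (hW : W.Finite) {e : ℕ} (he : 1 ≤ e) :
    {u : k | u ^ e ∈ W}.Finite := by
  classical
  refine Set.Finite.subset (hW.biUnion fun c _ =>
    ((Polynomial.nthRoots e c).toFinset : Finset k).finite_toSet) ?_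
  intro u hu
  rw [Set.mem_iUnion₂]
  refine ⟨u ^ e, hu, ?_⟩
  rw [Finset.mem_coe, Multiset.mem_toFinset, Polynomial.mem_nthRoots (by omega)]

/-- **Finiteness of the integral points.** -/
theorem a1 {K : Type} [Field K] [NumberField K] {ι κ : Type} [Finite ι] {d : ℕ} (σ : K →+* ℂ)
    (F : ι → MvPolynomial (Fin (n + 1)) (𝓞 K)) (G : κ → MvPolynomial (Fin (n + 1)) (𝓞 K))
    (hF : ∀ i, ∃ e ≤ d, (F i).IsHomogeneous e) (L : Type) [Field L] [NumberField L] [Algebra K L]
    (τ : L →+* ℂ) (hτ : τ.comp (algebraMap K L) = σ)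
    (ℓ : (Fin (n + 1) → L) ≃ₗ[L] (Fin (n + 1) → L)) (Γ : Subgroup Lˣ) (hΓ : Γ.FG)
    (S : (Fin (n + 1) → ℂ) ≃ₗ[ℂ] (Fin (n + 1) → ℂ))
    (hS : ∀ v : Fin (n + 1) → L, (S fun j => τ (v j)) = fun j => τ (ℓ.symm v j))
    (hmon : ∀ x k, MonCurve σ F (BB n d) S x k → ∀ t : ℂ, t ≠ 0 → ∀ l,
      eval₂ (σ.comp (algebraMap (𝓞 K) K)) (S fun j => x j * t ^ k j) (G l) = 0) :
    (integralPts F G L ℓ Γ).Finite := by
  classical
  have : Fintype ι := Fintype.ofFinite ι
  set φ : 𝓞 K →+* L := (algebraMap K L).comp (algebraMap (𝓞 K) K) with hφ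
  have hφσ : τ.comp φ = σ.comp (algebraMap (𝓞 K) K) := by
    rw [hφ, ← RingHom.comp_assoc, hτ]
  set P : ι → MvPolynomial (Fin (n + 1)) L := fun i => lsub φ ℓ.symm (F i) with hP
  have hPh : ∀ i, ∃ e ≤ d, (P i).IsHomogeneous e := fun i => by
    obtain ⟨e, hed, he⟩ := hF i
    exact ⟨e, hed, lsub_homog φ ℓ.symm he⟩
  have hPD : ∀ i, (P i).support ⊆ DD n d := by
    intro i α hα
    obtain ⟨e, hed, he⟩ := hPh i
    rw [mem_DD, homog_deg he (mem_support_iff.1 hα)]
    exact hed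
  -- the group
  set cu : ι × (Fin (n + 1) →₀ ℕ) → Lˣ := fun p =>
    if h : (P p.1).coeff p.2 = 0 then 1 else Units.mk0 _ h with hcu
  set Γ' : Subgroup Lˣ := Γ ⊔ Subgroup.closure
    (((Finset.univ ×ˢ DD n d).image cu : Finset Lˣ) : Set Lˣ) with hΓ'
  have hfg : Γ'.FG := hΓ.sup ⟨_, rfl⟩
  obtain ⟨R, hR⟩ := ue_ratio (Pm Γ') (ue_numberField L Γ' hfg) (DD n d).card
  set R' : Finset L := (Finset.univ ×ˢ (DD n d ×ˢ DD n d) ×ˢ R).image
    (fun p : ι × Pr n × L => p.2.2 * ((P p.1).coeff p.2.1.2 / (P p.1).coeff p.2.1.1)) with hR'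
  -- the data of a vector
  set fam : ι → (Fin (n + 1) → L) → (Fin (n + 1) →₀ ℕ) → L := fun i y α =>
    (P i).coeff α * mon y α with hfam
  set XX : (Fin (n + 1) → L) → Finset (Pr n) := fun y => (DD n d ×ˢ DD n d).filter fun x =>
    x.1 ≠ x.2 ∧ ∃ i, ∃ Bk ⊆ (P i).support, Blk (fam i y) Bk ∧ x.1 ∈ Bk ∧ x.2 ∈ Bk with hXX
  have hXXD : ∀ y, XX y ⊆ DD n d ×ˢ DD n d := fun y => Finset.filter_subset _ _
  have hXXdeg : ∀ y, ∀ x ∈ XX y, ∑ l, x.1 l = ∑ l, x.2 l := by
    intro y x hx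
    obtain ⟨-, -, i, Bk, hBk, -, h1, h2⟩ := Finset.mem_filter.1 hx
    obtain ⟨e, -, he⟩ := hPh i
    rw [homog_deg he (mem_support_iff.1 (hBk h1)), homog_deg he (mem_support_iff.1 (hBk h2))]
  -- the finite set of quotients for given data
  have hWex : ∀ p : Finset (Pr n) × Fin (n + 1) × Fin (n + 1), ∃ W : Set L, W.Finite ∧
      ∀ y : Fin (n + 1) → L, y p.2.2 ≠ 0 →
        (∀ x ∈ p.1, ∀ α β, (α = x.1 ∨ α = x.2) → (β = x.1 ∨ β = x.2) →
          mon y β ≠ 0 ∧ mon y α / mon y β ∈ R') →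
        (∃ (e : ℕ) (k : Pr n → ℤ), (∀ x ∈ p.1, |k x| ≤ (KK n d : ℤ)) ∧ Qt p.1 p.2.1 p.2.2 e k) →
        y p.2.1 / y p.2.2 ∈ W := by
    rintro ⟨X, i, j⟩
    by_cases h : ∃ (e : ℕ) (k : Pr n → ℤ), (∀ x ∈ X, |k x| ≤ (KK n d : ℤ)) ∧ Qt X i j e k
    · obtain ⟨e, k, hk, hQ⟩ := h
      obtain ⟨a, b, ha, hb, hab⟩ := slots X (KK n d) hk hQ
      have hfin : (Set.image (fun r : {x // x ∈ X} × Fin (KK n d) → L => ∏ t, r t)
          (Set.pi Set.univ fun _ => (R' : Set L))).Finite :=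
        (Set.Finite.pi fun _ => R'.finite_toSet).image _
      refine ⟨{u : L | u ^ e ∈ Set.image (fun r : {x // x ∈ X} × Fin (KK n d) → L => ∏ t, r t)
          (Set.pi Set.univ fun _ => (R' : Set L))}, roots_fin hfin hQ.1, ?_⟩
      intro y hy hx _
      have h1 := mon_quot y hab hy (fun t => (hx t.1 t.1.2 _ _ (hb t) (hb t)).1)
      refine ⟨fun t => mon y (a t) / mon y (b t), ?_, h1.symm⟩
      intro t _
      exact (hx t.1 t.1.2 _ _ (ha t) (hb t)).2
    · exact ⟨∅, Set.finite_empty, fun y _ _ h' => absurd h' h⟩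
  choose W hWfin hW using hWex
  set WW : Set L := {0} ∪ ⋃ p ∈ ((DD n d ×ˢ DD n d).powerset ×ˢ
    (Finset.univ ×ˢ Finset.univ : Finset (Fin (n + 1) × Fin (n + 1))) :
      Finset (Finset (Pr n) × Fin (n + 1) × Fin (n + 1))), W p with hWW
  have hWWfin : WW.Finite :=
    (Set.finite_singleton 0).union ((Finset.finite_toSet _).biUnion fun p _ => hWfin p)
  rcases (integralPts F G L ℓ Γ).eq_empty_or_nonempty with he | ⟨P0, -⟩
  · rw [he]; exact Set.finite_empty
  set mk0 : (Fin (n + 1) → L) → ℙ L (Fin (n + 1) → L) := fun v =>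
    if h : ℓ.symm v ≠ 0 then Projectivization.mk L (ℓ.symm v) h else P0 with hmk0
  refine Set.Finite.subset ((Set.Finite.pi (fun _ : Fin (n + 1) => hWWfin)).image mk0) ?_
  rintro Q ⟨x, hx0, rfl, hFx, ⟨l0, hGx⟩, hxΓ⟩
  set y : Fin (n + 1) → L := ℓ x with hy
  have hyx : ℓ.symm y = x := ℓ.symm_apply_apply x
  have hPy : ∀ i, ∑ α ∈ (P i).support, fam i y α = 0 := by
    intro i
    have h1 := eval_lsub φ ℓ.symm (F i) y
    rw [hyx, hFx i] at h1
    rw [← h1, eval_eq']
    rfl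
  have hy0 : y ≠ 0 := by
    intro h
    apply hx0
    rw [← hyx, h, map_zero]
  obtain ⟨j, hj⟩ := Function.ne_iff.1 hy0
  have hj' : y j ≠ 0 := hj
  -- there is no weight
  have hnw : ∀ i, y i ≠ 0 → ¬ ∃ w : Fin (n + 1) → ℕ, (∀ l, w l ≤ BB n d) ∧ Wt (XX y) i j w := by
    rintro i hi ⟨w, hwB, hw1, hw2⟩
    have hlev : ∀ i r, ∑ α ∈ (P i).support with ∑ l, w l * α l = r, (P i).coeff α * mon y α = 0 := by
      intro i r
      refine level (fam i y) (fun α => ∑ l, w l * α l) r (P i).support (hPy i) ?_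
      intro Bk hBk hblk α hα β hβ
      by_cases hαβ : α = β
      · rw [hαβ]
      · refine hw2 (α, β) ?_
        simp only [hXX, Finset.mem_filter, Finset.mem_product]
        exact ⟨⟨hPD i (hBk hα), hPD i (hBk hβ)⟩, hαβ, i, Bk, hBk, hblk, hα, hβ⟩
    have hcurve : MonCurve σ F (BB n d) S (fun l => τ (y l)) w := by
      refine ⟨hwB, ⟨i, j, ?_, ?_, hw1⟩, ?_⟩
      · exact (map_ne_zero τ).2 hi
      · exact (map_ne_zero τ).2 hj'
      · intro t _ i
        rw [← hφσ, ← eval_lsub, ← map_lsub φ τ ℓ.symm S hS]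
        exact eval_weight τ (P i) y w (hlev i) t
    have h1 := hmon _ _ hcurve 1 one_ne_zero l0
    simp only [one_pow, mul_one] at h1
    rw [hS y, hyx, ← hφσ] at h1
    apply hGx
    have h2 : τ (eval₂ φ x (G l0)) = 0 := by
      rw [← h1, hom_eval₂]
    exact (map_eq_zero τ).1 h2
  -- the quotients of monomials
  have hquo : ∀ q ∈ XX y, ∀ α β, (α = q.1 ∨ α = q.2) → (β = q.1 ∨ β = q.2) →
      mon y β ≠ 0 ∧ mon y α / mon y β ∈ R' := by
    intro q hq α β hα hβ
    obtain ⟨-, hne, i, Bk, hBk, hblk, h1, h2⟩ := Finset.mem_filter.1 hq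
    have hαB : α ∈ Bk := by rcases hα with rfl | rfl <;> assumption
    have hβB : β ∈ Bk := by rcases hβ with rfl | rfl <;> assumption
    have hnz : ∀ γ ∈ Bk, fam i y γ ≠ 0 := by
      intro γ hγ h0
      have h3 := hblk.2.2 {γ} (Finset.singleton_subset_iff.2 hγ) (Finset.singleton_nonempty γ)
        (by rw [Finset.sum_singleton]; exact h0)
      rw [← h3, Finset.mem_singleton] at h1 h2
      exact hne (h1.trans h2.symm)
    have hmonΓ : ∀ γ : Fin (n + 1) →₀ ℕ, mon y γ ≠ 0 → ∃ u ∈ Γ, mon y γ = (u : Lˣ) := by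
      intro γ hγ
      have h4 : ∀ l, ∃ u ∈ Γ, y l ^ γ l = (u : Lˣ) := by
        intro l
        rcases hxΓ l with h5 | ⟨u, hu, h5⟩
        · have h6 : γ l = 0 := by
            by_contra h7
            apply hγ
            unfold mon
            exact Finset.prod_eq_zero (Finset.mem_univ l) (by rw [h5, zero_pow h7])
          exact ⟨1, one_mem _, by rw [h6]; simp⟩
        · exact ⟨u ^ γ l, pow_mem hu _, by rw [h5]; simp⟩
      choose u hu huy using h4
      refine ⟨∏ l, u l, prod_mem fun l _ => hu l, ?_⟩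
      unfold mon
      rw [Units.coe_prod]
      exact Finset.prod_congr rfl fun l _ => huy l
    have hfamΓ : ∀ γ ∈ Bk, fam i y γ ∈ Pm Γ' := by
      intro γ hγ
      have h4 := hnz γ hγ
      obtain ⟨u, hu, hu'⟩ := hmonΓ γ (right_ne_zero_of_mul h4)
      refine ⟨cu (i, γ) * u, mul_mem (Subgroup.mem_sup_right (Subgroup.subset_closure ?_))
        (Subgroup.mem_sup_left hu), Or.inl ?_⟩
      · rw [Finset.mem_coe]
        exact Finset.mem_image_of_mem _ (Finset.mem_product.2 ⟨Finset.mem_univ _, hPD i (hBk hγ)⟩)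
      · rw [Units.val_mul, ← hu']
        simp only [hcu, hfam]
        rw [dif_neg (left_ne_zero_of_mul h4)]
        rfl
    have h5 := hR _ (fam i y) Bk (Finset.card_le_card (hBk.trans (hPD i))) hfamΓ hblk.2.1 hblk.2.2
      α hαB β hβB
    refine ⟨right_ne_zero_of_mul (hnz β hβB), ?_⟩
    rw [hR', Finset.mem_image]
    refine ⟨(i, (α, β), fam i y α / fam i y β), ?_, ?_⟩
    · simp only [Finset.mem_product, Finset.mem_univ, true_and]
      exact ⟨⟨hPD i (hBk hαB), hPD i (hBk hβB)⟩, h5⟩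
    · have h6 := left_ne_zero_of_mul (hnz α hαB)
      have h7 := left_ne_zero_of_mul (hnz β hβB)
      have h8 := right_ne_zero_of_mul (hnz β hβB)
      simp only [hfam]
      field_simp
  refine ⟨fun i => y i / y j, ?_, ?_⟩
  · intro i _
    by_cases hi : y i = 0
    · left
      simp [hi]
    · right
      simp only [Set.mem_iUnion]
      refine ⟨(XX y, i, j), ?_, ?_⟩
      · simp [hXXD y]
      · refine hW (XX y, i, j) y hj' hquo ?_
        rcases alt' n d (XX y) (hXXD y) (hXXdeg y) i j with ⟨w, hw1, hw2⟩ | h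
        · exact absurd ⟨w, hw1, hw2⟩ (hnw i hi)
        · exact h
  · have h1 : ℓ.symm (fun i => y i / y j) = (y j)⁻¹ • x := by
      rw [← hyx, ← map_smul]
      congr 1
      funext i
      rw [Pi.smul_apply, smul_eq_mul, div_eq_mul_inv, mul_comm]
    have h2 : ℓ.symm (fun i => y i / y j) ≠ 0 := by
      rw [h1]
      exact smul_ne_zero (inv_ne_zero hj') hx0
    simp only [hmk0]
    rw [dif_pos h2, Projectivization.mk_eq_mk_iff']
    exact ⟨(y j)⁻¹, h1.symm⟩

end Run7.h34.OK
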