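import Pool.Agent.Q72.OK.Def

/-!
Project OK, job A2: a monomial curve outside of `V'` gives infinitely many integral points.
-/

set_option autoImplicit false

namespace Run7.h34.OK

open MvPolynomial Pool.Agent.Q72.OK
open scoped NumberField LinearAlgebra.Projectivization Matrix

variable {n : ℕ}

/-- the polynomial `F (M (x_j T ^ k_j))` -/
noncomputable def pol {A R : Type*} [CommRing A] [CommRing R] (k : Fin (n + 1) → ℕ) (φ : R →+* A)
    (M : Matrix (Fin (n + 1)) (Fin (n + 1)) A) (x : Fin (n + 1) → A)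
    (F : MvPolynomial (Fin (n + 1)) R) : Polynomial A :=
  eval₂ (Polynomial.C.comp φ) (fun a => ∑ b, Polynomial.C (M a b * x b) * Polynomial.X ^ k b) F

theorem pol_eval {A R : Type*} [CommRing A] [CommRing R] (k : Fin (n + 1) → ℕ) (φ : R →+* A)
    (M : Matrix (Fin (n + 1)) (Fin (n + 1)) A) (x : Fin (n + 1) → A)
    (F : MvPolynomial (Fin (n + 1)) R) (t : A) :
    (pol k φ M x F).eval t = eval₂ φ (M *ᵥ fun j => x j * t ^ k j) F := by
  unfold pol
  rw [← Polynomial.coe_evalRingHom, hom_eval₂]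
  congr 1
  · ext r; simp
  · funext a
    simp only [map_sum, Polynomial.coe_evalRingHom, Polynomial.eval_mul, Polynomial.eval_C,
      Polynomial.eval_pow, Polynomial.eval_X, Matrix.mulVec, dotProduct]
    exact Finset.sum_congr rfl fun b _ => by ring

theorem pol_map {A A' R : Type*} [CommRing A] [CommRing A'] [CommRing R] (k : Fin (n + 1) → ℕ)
    (φ : R →+* A) (ψ : A →+* A')
    (M : Matrix (Fin (n + 1)) (Fin (n + 1)) A) (x : Fin (n + 1) → A)
    (F : MvPolynomial (Fin (n + 1)) R) :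
    (pol k φ M x F).map ψ = pol k (ψ.comp φ) (M.map ψ) (fun j => ψ (x j)) F := by
  unfold pol
  rw [← Polynomial.coe_mapRingHom, hom_eval₂]
  congr 1
  · ext r; simp
  · funext a
    simp only [map_sum, Polynomial.coe_mapRingHom, Polynomial.map_C,
      Polynomial.map_pow, Polynomial.map_X, Matrix.map_apply, map_mul]

/-- the points `x_j (2 ^ N) ^ k_j` over a field of characteristic zero -/
theorem two_pow_inj {L : Type*} [Field L] [CharZero L] {x : Fin (n + 1) → L}
    {k : Fin (n + 1) → ℕ} {i j : Fin (n + 1)} (hi : x i ≠ 0) (hj : x j ≠ 0) (hk : k i ≠ k j)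
    {N M : ℕ} {c : L}
    (h : ∀ a, x a * ((2 : L) ^ N) ^ k a = c * (x a * ((2 : L) ^ M) ^ k a)) : N = M := by
  have h1 : ((2 : L) ^ N) ^ k i = c * ((2 : L) ^ M) ^ k i := by
    apply mul_left_cancel₀ hi
    linear_combination h i
  have h2 : ((2 : L) ^ N) ^ k j = c * ((2 : L) ^ M) ^ k j := by
    apply mul_left_cancel₀ hj
    linear_combination h j
  have h20 : (2 : L) ≠ 0 := two_ne_zero
  have hc : c ≠ 0 := by
    rintro rfl
    rw [zero_mul] at h1
    exact pow_ne_zero _ (pow_ne_zero _ h20) h1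
  have h3 : (2 : L) ^ (N * k i + M * k j) = (2 : L) ^ (M * k i + N * k j) := by
    apply mul_left_cancel₀ hc
    rw [pow_add, pow_add, pow_mul, pow_mul, pow_mul, pow_mul]
    linear_combination (c * ((2 : L) ^ M) ^ k j) * h1 - (c * ((2 : L) ^ M) ^ k i) * h2
  have h4 : N * k i + M * k j = M * k i + N * k j := by
    have h5 : ((2 ^ (N * k i + M * k j) : ℕ) : L) = ((2 ^ (M * k i + N * k j) : ℕ) : L) := by
      push_cast
      exact h3
    exact Nat.pow_right_injective le_rfl (Nat.cast_injective h5)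
  have h5 : ((N : ℤ) - M) * ((k i : ℤ) - k j) = 0 := by
    have : ((N * k i + M * k j : ℕ) : ℤ) = ((M * k i + N * k j : ℕ) : ℤ) := by rw [h4]
    push_cast at this
    linear_combination this
  rcases mul_eq_zero.1 h5 with h6 | h6
  · omega
  · exfalso; apply hk; omega

/-- **Specialisation.** -/
theorem a2 (K : Type) [Field K] [NumberField K] (ι κ : Type) (n : ℕ) (σ : K →+* ℂ)
    (F : ι → MvPolynomial (Fin (n + 1)) (𝓞 K)) (G : κ → MvPolynomial (Fin (n + 1)) (𝓞 K)) (B : ℕ)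
    (S : (Fin (n + 1) → ℂ) ≃ₗ[ℂ] (Fin (n + 1) → ℂ)) (x : Fin (n + 1) → ℂ) (k : Fin (n + 1) → ℕ)
    (hcurve : MonCurve σ F B S x k) (t : ℂ) (l : κ) (ht : t ≠ 0)
    (hG : eval₂ (σ.comp (algebraMap (𝓞 K) K)) (S fun j => x j * t ^ k j) (G l) ≠ 0) :
    ∃ (L : Type) (_ : Field L) (_ : NumberField L) (_ : Algebra K L)
      (ℓ : (Fin (n + 1) → L) ≃ₗ[L] (Fin (n + 1) → L)) (Γ : Subgroup Lˣ), Γ.FG ∧
      (S = LinearEquiv.refl ℂ (Fin (n + 1) → ℂ) → ℓ = LinearEquiv.refl L (Fin (n + 1) → L)) ∧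
      ¬ (integralPts F G L ℓ Γ).Finite := by
  classical
  let _ : Algebra K ℂ := σ.toAlgebra
  have hσ : algebraMap K ℂ = σ := rfl
  set M : Matrix (Fin (n + 1)) (Fin (n + 1)) ℂ := LinearMap.toMatrix' (S : _ →ₗ[ℂ] _) with hM
  set N : Matrix (Fin (n + 1)) (Fin (n + 1)) ℂ := LinearMap.toMatrix' (S.symm : _ →ₗ[ℂ] _) with hN
  have hMv : ∀ v, S v = M *ᵥ v := by
    intro v
    rw [hM, LinearMap.toMatrix'_mulVec]
    rfl
  have hMN : M * N = 1 := by
    rw [hM, hN, ← LinearMap.toMatrix'_comp, LinearEquiv.comp_symm, LinearMap.toMatrix'_id]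
  have hNM : N * M = 1 := by
    rw [hM, hN, ← LinearMap.toMatrix'_comp, LinearEquiv.symm_comp, LinearMap.toMatrix'_id]
  set φ : 𝓞 K →+* ℂ := σ.comp (algebraMap (𝓞 K) K) with hφ
  have hF0 : ∀ i, pol k φ M x (F i) = 0 := by
    intro i
    apply Polynomial.eq_zero_of_infinite_isRoot
    refine Set.Infinite.mono (s := {t : ℂ | t ≠ 0}) ?_ ?_
    · intro t ht
      change (pol k φ M x (F i)).eval t = 0
      rw [pol_eval, ← hMv]
      exact hcurve.mem t ht i
    · exact Set.Finite.infinite_compl (Set.finite_singleton (0 : ℂ))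
  have hq0 : pol k φ M x (G l) ≠ 0 := by
    intro h0
    apply hG
    rw [hMv, ← pol_eval, h0, Polynomial.eval_zero]
  obtain ⟨m, hm⟩ : ∃ m, (pol k φ M x (G l)).coeff m ≠ 0 := by
    by_contra hcon
    push Not at hcon
    exact hq0 (Polynomial.ext fun m => by rw [hcon m, Polynomial.coeff_zero])
  set c : ℂ := (pol k φ M x (G l)).coeff m with hc
  -- the algebra
  set gen : Finset ℂ := (Finset.univ.image fun p : Fin (n + 1) × Fin (n + 1) => M p.1 p.2) ∪
    (Finset.univ.image fun p : Fin (n + 1) × Fin (n + 1) => N p.1 p.2) ∪ (Finset.univ.image x) ∪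
    (Finset.univ.image fun j => (x j)⁻¹) ∪ {c⁻¹} with hgen
  set R : Subalgebra K ℂ := Algebra.adjoin K (gen : Set ℂ) with hR
  have hMR : ∀ a b, M a b ∈ R := fun a b => Algebra.subset_adjoin (by
    simp only [hgen, Finset.coe_union, Finset.coe_image, Finset.coe_univ, Set.image_univ]
    exact Or.inl (Or.inl (Or.inl (Or.inl ⟨(a, b), rfl⟩))))
  have hNR : ∀ a b, N a b ∈ R := fun a b => Algebra.subset_adjoin (by
    simp only [hgen, Finset.coe_union, Finset.coe_image, Finset.coe_univ, Set.image_univ]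
    exact Or.inl (Or.inl (Or.inl (Or.inr ⟨(a, b), rfl⟩))))
  have hxR : ∀ j, x j ∈ R := fun j => Algebra.subset_adjoin (by
    simp only [hgen, Finset.coe_union, Finset.coe_image, Finset.coe_univ, Set.image_univ]
    exact Or.inl (Or.inl (Or.inr ⟨j, rfl⟩)))
  have hxiR : ∀ j, (x j)⁻¹ ∈ R := fun j => Algebra.subset_adjoin (by
    simp only [hgen, Finset.coe_union, Finset.coe_image, Finset.coe_univ, Set.image_univ]
    exact Or.inl (Or.inr ⟨j, rfl⟩))
  have hcR : c⁻¹ ∈ R := Algebra.subset_adjoin (by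
    simp only [hgen, Finset.coe_union, Finset.coe_singleton]
    exact Or.inr rfl)
  have hft : Algebra.FiniteType K R := (Subalgebra.fg_iff_finiteType R).1 ⟨gen, rfl⟩
  obtain ⟨𝔪, h𝔪⟩ := Ideal.exists_maximal R
  let fL : Field (R ⧸ 𝔪) := Ideal.Quotient.field 𝔪
  set π : R →+* (R ⧸ 𝔪) := Ideal.Quotient.mk 𝔪 with hπ
  have hftL : Algebra.FiniteType K (R ⧸ 𝔪) :=
    Algebra.FiniteType.of_surjective (Ideal.Quotient.mkₐ K 𝔪) (Ideal.Quotient.mkₐ_surjective K 𝔪)
  have hfin : Module.Finite K (R ⧸ 𝔪) := finite_of_finite_type_of_isJacobsonRing K (R ⧸ 𝔪)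
  have nL : NumberField (R ⧸ 𝔪) := NumberField.of_module_finite K (R ⧸ 𝔪)
  -- the objects over `R`
  set ι' : R →+* ℂ := (R.val : R →ₐ[K] ℂ).toRingHom with hι'
  have hinj : Function.Injective ι' := Subtype.val_injective
  set φR : 𝓞 K →+* R := (algebraMap K R).comp (algebraMap (𝓞 K) K) with hφR
  have hφι : ι'.comp φR = φ := by
    ext r
    rfl
  set MR : Matrix (Fin (n + 1)) (Fin (n + 1)) R := fun a b => ⟨M a b, hMR a b⟩ with hMRd
  set NR : Matrix (Fin (n + 1)) (Fin (n + 1)) R := fun a b => ⟨N a b, hNR a b⟩ with hNRd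
  set xR : Fin (n + 1) → R := fun j => ⟨x j, hxR j⟩ with hxRd
  have hMRι : MR.map ι' = M := rfl
  have hNRι : NR.map ι' = N := rfl
  have hMNR : MR * NR = 1 := by
    apply Matrix.map_injective hinj
    change (MR * NR).map ι' = (1 : Matrix _ _ R).map ι'
    rw [Matrix.map_mul, hMRι, hNRι, hMN, Matrix.map_one _ (map_zero ι') (map_one ι')]
  have hNMR : NR * MR = 1 := by
    apply Matrix.map_injective hinj
    change (NR * MR).map ι' = (1 : Matrix _ _ R).map ι'
    rw [Matrix.map_mul, hMRι, hNRι, hNM, Matrix.map_one _ (map_zero ι') (map_one ι')]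
  have hpolR : ∀ P : MvPolynomial (Fin (n + 1)) (𝓞 K),
      (pol k φR MR xR P).map ι' = pol k φ M x P := by
    intro P
    rw [pol_map, hφι]
    rfl
  have hF0R : ∀ i, pol k φR MR xR (F i) = 0 := by
    intro i
    apply Polynomial.map_injective ι' hinj
    rw [hpolR, hF0, Polynomial.map_zero]
  -- the objects over `L`
  set φL : 𝓞 K →+* (R ⧸ 𝔪) := (algebraMap K (R ⧸ 𝔪)).comp (algebraMap (𝓞 K) K) with hφL
  have hφπ : π.comp φR = φL := by
    ext r
    rfl
  set ML : Matrix (Fin (n + 1)) (Fin (n + 1)) (R ⧸ 𝔪) := MR.map π with hML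
  set NL : Matrix (Fin (n + 1)) (Fin (n + 1)) (R ⧸ 𝔪) := NR.map π with hNL
  set xL : Fin (n + 1) → (R ⧸ 𝔪) := fun j => π (xR j) with hxL
  have hMNL : ML * NL = 1 := by
    rw [hML, hNL, ← Matrix.map_mul, hMNR, Matrix.map_one _ (map_zero π) (map_one π)]
  have hNML : NL * ML = 1 := by
    rw [hML, hNL, ← Matrix.map_mul, hNMR, Matrix.map_one _ (map_zero π) (map_one π)]
  have hpolL : ∀ P : MvPolynomial (Fin (n + 1)) (𝓞 K),
      (pol k φR MR xR P).map π = pol k φL ML xL P := by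
    intro P
    rw [pol_map, hφπ]
  have hF0L : ∀ i, pol k φL ML xL (F i) = 0 := by
    intro i
    rw [← hpolL, hF0R, Polynomial.map_zero]
  have hqL : pol k φL ML xL (G l) ≠ 0 := by
    intro h0
    have h1 : π ((pol k φR MR xR (G l)).coeff m) = 0 := by
      rw [← Polynomial.coeff_map, hpolL, h0, Polynomial.coeff_zero]
    have h2 : ι' ((pol k φR MR xR (G l)).coeff m) = c := by
      rw [← Polynomial.coeff_map, hpolR]
    have h3 : (pol k φR MR xR (G l)).coeff m * ⟨c⁻¹, hcR⟩ = 1 := by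
      apply hinj
      rw [map_mul, h2, map_one]
      exact mul_inv_cancel₀ hm
    have h4 := congrArg π h3
    rw [map_mul, h1, zero_mul, map_one] at h4
    exact zero_ne_one h4
  have hxne : ∀ j, x j ≠ 0 → xL j ≠ 0 := by
    intro j hj h0
    have h3 : xR j * ⟨(x j)⁻¹, hxiR j⟩ = 1 := by
      apply hinj
      rw [map_mul, map_one]
      exact mul_inv_cancel₀ hj
    have h4 := congrArg π h3
    rw [map_mul, map_one] at h4
    have h5 : π (xR j) = 0 := h0
    rw [h5, zero_mul] at h4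
    exact zero_ne_one h4
  -- the linear automorphism and the group
  set ℓ : (Fin (n + 1) → (R ⧸ 𝔪)) ≃ₗ[R ⧸ 𝔪] (Fin (n + 1) → (R ⧸ 𝔪)) :=
    LinearEquiv.ofLinearMap (Matrix.toLin' NL) (Matrix.toLin' ML)
      (by rw [← Matrix.toLin'_mul, hNML, Matrix.toLin'_one])
      (by rw [← Matrix.toLin'_mul, hMNL, Matrix.toLin'_one]) with hℓ
  have hℓv : ∀ v, ℓ v = NL *ᵥ v := fun v => rfl
  have hℓM : ∀ v, ℓ (ML *ᵥ v) = v := by
    intro v
    rw [hℓv, Matrix.mulVec_mulVec, hNML, Matrix.one_mulVec]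
  set two : (R ⧸ 𝔪)ˣ := Units.mk0 2 two_ne_zero with htwo
  set ux : Fin (n + 1) → (R ⧸ 𝔪)ˣ := fun j => if h : xL j = 0 then 1 else Units.mk0 _ h with hux
  set Γ : Subgroup (R ⧸ 𝔪)ˣ := Subgroup.closure
    ((insert two (Finset.univ.image ux) : Finset (R ⧸ 𝔪)ˣ) : Set (R ⧸ 𝔪)ˣ) with hΓ
  refine ⟨R ⧸ 𝔪, fL, nL, inferInstance, ℓ, Γ, ⟨_, rfl⟩, ?_, ?_⟩
  · intro hS
    have hN1 : N = 1 := by
      rw [hN, hS]
      exact LinearMap.toMatrix'_id
    have hNR1 : NR = 1 := by
      apply Matrix.map_injective hinj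
      change NR.map ι' = (1 : Matrix _ _ R).map ι'
      rw [hNRι, hN1, Matrix.map_one _ (map_zero ι') (map_one ι')]
    have hNL1 : NL = 1 := by
      rw [hNL, hNR1, Matrix.map_one _ (map_zero π) (map_one π)]
    apply LinearEquiv.ext
    intro v
    rw [hℓv, hNL1, Matrix.one_mulVec]
    rfl
  -- the points
  obtain ⟨i, j, hi, hj, hk⟩ := hcurve.nc
  set v : ℕ → Fin (n + 1) → (R ⧸ 𝔪) := fun a b => xL b * ((2 : R ⧸ 𝔪) ^ a) ^ k b with hv
  have hv0 : ∀ a, ML *ᵥ v a ≠ 0 := by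
    intro a h0
    have h1 := hℓM (v a)
    rw [h0, map_zero] at h1
    have h2 := congrFun h1 i
    simp only [hv, Pi.zero_apply] at h2
    exact mul_ne_zero (hxne i hi) (pow_ne_zero _ (pow_ne_zero _ two_ne_zero)) h2.symm
  set Q : ℕ → ℙ (R ⧸ 𝔪) (Fin (n + 1) → (R ⧸ 𝔪)) := fun a =>
    Projectivization.mk _ (ML *ᵥ v a) (hv0 a) with hQ
  have hQinj : Function.Injective Q := by
    intro a b hab
    rw [hQ] at hab
    simp only at hab
    rw [Projectivization.mk_eq_mk_iff'] at hab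
    obtain ⟨u, hu⟩ := hab
    have h1 : v a = u • v b := by
      have h2 := congrArg ℓ hu
      rw [map_smul, hℓM, hℓM] at h2
      exact h2.symm
    refine two_pow_inj (x := xL) (k := k) (c := u) (hxne i hi) (hxne j hj) hk fun e => ?_
    have := congrFun h1 e
    simpa [hv] using this
  have hfinroots : {a : ℕ | (pol k φL ML xL (G l)).eval ((2 : R ⧸ 𝔪) ^ a) = 0}.Finite := by
    have h1 : Function.Injective fun a : ℕ => (2 : R ⧸ 𝔪) ^ a := by
      intro a b hab
      have h5 : ((2 ^ a : ℕ) : R ⧸ 𝔪) = ((2 ^ b : ℕ) : R ⧸ 𝔪) := by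
        push_cast
        exact hab
      exact Nat.pow_right_injective le_rfl (Nat.cast_injective h5)
    refine Set.Finite.subset (Set.Finite.preimage (Set.injOn_of_injective h1)
      (Finset.finite_toSet (pol k φL ML xL (G l)).roots.toFinset)) ?_
    intro a ha
    rw [Set.mem_preimage, Finset.mem_coe, Multiset.mem_toFinset, Polynomial.mem_roots hqL]
    exact ha
  intro hfinite
  have hinf : {a : ℕ | (pol k φL ML xL (G l)).eval ((2 : R ⧸ 𝔪) ^ a) ≠ 0}.Infinite :=
    hfinroots.infinite_compl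
  refine (hinf.image (hQinj.injOn)).mono ?_ hfinite
  rintro _ ⟨a, ha, rfl⟩
  refine ⟨ML *ᵥ v a, hv0 a, rfl, ?_, ⟨l, ?_⟩, ?_⟩
  · intro i
    have h1 := pol_eval k φL ML xL (F i) ((2 : R ⧸ 𝔪) ^ a)
    rw [hF0L, Polynomial.eval_zero] at h1
    exact h1.symm
  · have h1 := pol_eval k φL ML xL (G l) ((2 : R ⧸ 𝔪) ^ a)
    intro h2
    apply ha
    rw [h1]
    exact h2
  · intro b
    rw [hℓM]
    by_cases hb : xL b = 0
    · left
      simp [hv, hb]
    · right
      refine ⟨ux b * (two ^ a) ^ k b, mul_mem (Subgroup.subset_closure ?_)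
        (pow_mem (pow_mem (Subgroup.subset_closure ?_) _) _), ?_⟩
      · rw [Finset.mem_coe]
        exact Finset.mem_insert_of_mem (Finset.mem_image_of_mem _ (Finset.mem_univ _))
      · rw [Finset.mem_coe]
        exact Finset.mem_insert_self _ _
      · simp only [hv, hux, htwo]
        rw [dif_neg hb]
        simp

end Run7.h34.OK
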