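import Mathlib

/-!
Minimal vanishing subsums, and the alternative between weights and quotients of monomials.
-/

set_option autoImplicit false

namespace Run7.h34.OK

open Finset

/-- a minimal vanishing subfamily -/
def Blk {ι M : Type*} [AddCommMonoid M] (f : ι → M) (B : Finset ι) : Prop :=
  B.Nonempty ∧ ∑ i ∈ B, f i = 0 ∧ ∀ B' ⊆ B, B'.Nonempty → ∑ i ∈ B', f i = 0 → B' = B

theorem exists_blk {ι M : Type*} [AddCommMonoid M] (f : ι → M) (s : Finset ι)
    (hne : s.Nonempty) (hs : ∑ i ∈ s, f i = 0) : ∃ B ⊆ s, Blk f B := by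
  classical
  have h1 : ∃ n, ∃ B ⊆ s, B.Nonempty ∧ ∑ i ∈ B, f i = 0 ∧ B.card = n :=
    ⟨_, s, Finset.Subset.refl _, hne, hs, rfl⟩
  obtain ⟨B, hB, hPB, hsB, hn⟩ := Nat.find_spec h1
  refine ⟨B, hB, hPB, hsB, ?_⟩
  intro B' hB' hP' hs'
  by_contra hne
  refine Nat.find_min h1 (m := B'.card) ?_ ⟨B', hB'.trans hB, hP', hs', rfl⟩
  rw [← hn]
  exact Finset.card_lt_card (Finset.ssubset_iff_subset_ne.2 ⟨hB', hne⟩)

/-- If a function is constant on the minimal vanishing subsums then the sums over its levels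
vanish. -/
theorem level {ι M H : Type*} [AddCommGroup M] [DecidableEq H] (f : ι → M)
    (h : ι → H) (r : H) : ∀ (s : Finset ι), ∑ i ∈ s, f i = 0 →
      (∀ B ⊆ s, Blk f B → ∀ i ∈ B, ∀ j ∈ B, h i = h j) →
      ∑ i ∈ s with h i = r, f i = 0 := by
  classical
  intro s
  induction s using Finset.strongInduction with
  | H s ih =>
    intro hs hB
    rcases s.eq_empty_or_nonempty with rfl | hne
    · simp
    obtain ⟨B, hBs, hblk⟩ := exists_blk f s hne hs
    have hsd : ∑ i ∈ s \ B, f i = 0 := by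
      have h1 := Finset.sum_sdiff hBs (f := f)
      rw [hs, hblk.2.1, add_zero] at h1
      exact h1
    have hlt : s \ B ⊂ s := Finset.sdiff_ssubset hBs hblk.1
    have h2 := ih (s \ B) hlt hsd (fun B' hB' hb => hB B' (hB'.trans Finset.sdiff_subset) hb)
    have h3 : ∑ i ∈ B with h i = r, f i = 0 := by
      by_cases hr : ∃ i ∈ B, h i = r
      · obtain ⟨i, hi, hir⟩ := hr
        rw [Finset.filter_true_of_mem (fun j hj => by rw [← hir]; exact hB B hBs hblk j hj i hi)]
        exact hblk.2.1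
      · push Not at hr
        rw [Finset.filter_false_of_mem hr]
        simp
    have h4 : s.filter (fun i => h i = r) = (s \ B).filter (fun i => h i = r) ∪
        B.filter (fun i => h i = r) := by
      rw [← Finset.filter_union, Finset.sdiff_union_of_subset hBs]
    rw [h4, Finset.sum_union, h2, h3, add_zero]
    exact Finset.disjoint_filter_filter Finset.sdiff_disjoint

/-- pairs of exponents -/
abbrev Pr (n : ℕ) : Type := (Fin (n + 1) →₀ ℕ) × (Fin (n + 1) →₀ ℕ)

variable {n : ℕ}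

/-- a weight which has equal values on both components of the pairs and separates `i` and `j` -/
def Wt (X : Finset (Pr n)) (i j : Fin (n + 1)) (w : Fin (n + 1) → ℕ) : Prop :=
  w i ≠ w j ∧ ∀ x ∈ X, ∑ l, w l * x.1 l = ∑ l, w l * x.2 l

/-- `e (e_i - e_j)` is the combination of the differences of the pairs -/
def Qt (X : Finset (Pr n)) (i j : Fin (n + 1)) (e : ℕ) (k : Pr n → ℤ) : Prop :=
  1 ≤ e ∧ ∀ l, (e : ℤ) * ((if l = i then 1 else 0) - (if l = j then 1 else 0)) =
    ∑ x ∈ X, k x * ((x.1 l : ℤ) - x.2 l)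

theorem alt0 (X : Finset (Pr n)) (hX : ∀ x ∈ X, ∑ l, x.1 l = ∑ l, x.2 l) (i j : Fin (n + 1)) :
    (∃ w, Wt X i j w) ∨ ∃ e k, Qt X i j e k := by
  classical
  set v : Pr n → Fin (n + 1) → ℚ := fun x l => (x.1 l : ℚ) - x.2 l with hv
  set U : Submodule ℚ (Fin (n + 1) → ℚ) := Submodule.span ℚ (v '' (X : Set (Pr n))) with hU
  by_cases h : (fun l => (if l = i then (1 : ℚ) else 0) - (if l = j then 1 else 0)) ∈ U
  · right
    obtain ⟨c0, hc0⟩ := (Submodule.mem_span_image_finset_iff_exists_fun ℚ).1 h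
    set c : Pr n → ℚ := fun x => if hx : x ∈ X then c0 ⟨x, hx⟩ else 0 with hcdef
    have hc : ∑ x ∈ X, c x • v x = fun l => (if l = i then (1 : ℚ) else 0) - (if l = j then 1 else 0) := by
      rw [← hc0, ← Finset.sum_coe_sort X]
      refine Finset.sum_congr rfl fun x _ => ?_
      rw [hcdef]
      simp
    obtain ⟨b, hb⟩ := IsLocalization.exist_integer_multiples_of_finset (nonZeroDivisors ℤ)
      (X.image c)
    have hb0 : (b : ℤ) ≠ 0 := nonZeroDivisors.ne_zero b.2
    have hk : ∀ x, ∃ m : ℤ, x ∈ X → (m : ℚ) = (b : ℤ) * c x := by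
      intro x
      by_cases hx : x ∈ X
      · obtain ⟨m, hm⟩ := hb (c x) (Finset.mem_image_of_mem c hx)
        refine ⟨m, fun _ => ?_⟩
        rw [eq_intCast] at hm
        rw [hm]
        simp [Algebra.smul_def]
      · exact ⟨0, fun hx' => absurd hx' hx⟩
    choose m hm using hk
    refine ⟨((b : ℤ) * b).toNat, fun x => b * m x, ?_, ?_⟩
    · have : 0 < (b : ℤ) * b := mul_self_pos.2 hb0
      omega
    · intro l
      have h1 : ((((b : ℤ) * b).toNat : ℕ) : ℤ) = (b : ℤ) * b :=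
        Int.toNat_of_nonneg (mul_self_nonneg _)
      rw [h1]
      have h2 := congrFun hc l
      have h3 : (((b : ℤ) * b * ((if l = i then 1 else 0) - (if l = j then 1 else 0)) : ℤ) : ℚ) =
          ((∑ x ∈ X, (b * m x) * ((x.1 l : ℤ) - x.2 l) : ℤ) : ℚ) := by
        push_cast
        rw [← h2, Finset.sum_apply, Finset.mul_sum]
        refine Finset.sum_congr rfl fun x hx => ?_
        rw [hm x hx, Pi.smul_apply, smul_eq_mul, hv]
        ring
      exact_mod_cast h3
  · left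
    obtain ⟨f, hf, hfU⟩ := Submodule.exists_dual_map_eq_bot_of_notMem h inferInstance
    obtain ⟨b, hb⟩ := IsLocalization.exist_integer_multiples_of_finset (nonZeroDivisors ℤ)
      (Finset.univ.image fun l => f (Pi.single l (1 : ℚ)))
    have hb0 : (b : ℤ) ≠ 0 := nonZeroDivisors.ne_zero b.2
    have hk : ∀ l, ∃ m : ℤ, (m : ℚ) = (b : ℤ) * f (Pi.single l (1 : ℚ)) := by
      intro l
      obtain ⟨m, hm⟩ := hb _ (Finset.mem_image_of_mem (fun l => f (Pi.single l (1 : ℚ)))
        (Finset.mem_univ l))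
      refine ⟨m, ?_⟩
      rw [eq_intCast] at hm
      rw [hm]
      simp [Algebra.smul_def]
    choose m hm using hk
    have hfv : ∀ u : Fin (n + 1) → ℚ, (b : ℤ) * f u = ∑ l, u l * m l := by
      intro u
      rw [LinearMap.pi_apply_eq_sum_univ f u, Finset.mul_sum]
      refine Finset.sum_congr rfl fun l _ => ?_
      have : (fun a => if l = a then (1 : ℚ) else 0) = Pi.single l 1 := by
        funext a
        simp [Pi.single_apply, eq_comm]
      rw [hm, this, smul_eq_mul]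
      ring
    set c : ℤ := ∑ l, |m l| with hc
    have hcm : ∀ l, 0 ≤ m l + c := by
      intro l
      have h1 := Finset.single_le_sum (f := fun l => |m l|) (fun i _ => abs_nonneg _)
        (Finset.mem_univ l)
      have h2 := neg_abs_le (m l)
      rw [← hc] at h1
      linarith
    have hw : ∀ l, (((m l + c).toNat : ℕ) : ℤ) = m l + c := fun l => Int.toNat_of_nonneg (hcm l)
    refine ⟨fun l => (m l + c).toNat, ?_, ?_⟩
    · intro h0
      have h1 : m i + c = m j + c := by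
        rw [← hw i, ← hw j]
        exact_mod_cast h0
      apply hf
      have h2 := hfv (fun l => (if l = i then (1 : ℚ) else 0) - (if l = j then 1 else 0))
      have h3 : ∑ l, ((if l = i then (1 : ℚ) else 0) - (if l = j then 1 else 0)) * (m l : ℚ) =
          m i - m j := by
        simp [sub_mul, Finset.sum_sub_distrib]
      rw [h3] at h2
      have h4 : (m i : ℚ) - m j = 0 := by
        have : m i = m j := by linarith
        rw [this]; ring
      rw [h4] at h2
      exact (mul_eq_zero.1 h2).resolve_left (by exact_mod_cast hb0)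
    · intro x hx
      have h1 : f (v x) = 0 := by
        have : f (v x) ∈ U.map f := Submodule.mem_map_of_mem
          (Submodule.subset_span (Set.mem_image_of_mem v hx))
        rw [hfU] at this
        exact (Submodule.mem_bot ℚ).1 this
      have h2 := hfv (v x)
      rw [h1, mul_zero] at h2
      have h3 : ∑ l, ((x.1 l : ℤ) - x.2 l) * m l = 0 := by
        have : ((∑ l, ((x.1 l : ℤ) - x.2 l) * m l : ℤ) : ℚ) = 0 := by
          rw [h2]
          push_cast
          rfl
        exact_mod_cast this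
      have h4 : ∑ l, (x.1 l : ℤ) = ∑ l, (x.2 l : ℤ) := by exact_mod_cast hX x hx
      have h5 : ∑ l, (m l + c) * (x.1 l : ℤ) = ∑ l, (m l + c) * (x.2 l : ℤ) := by
        simp only [add_mul, Finset.sum_add_distrib, ← Finset.mul_sum, h4]
        have h6 : ∑ l, m l * (x.1 l : ℤ) - ∑ l, m l * (x.2 l : ℤ) = 0 := by
          rw [← Finset.sum_sub_distrib, ← h3]
          refine Finset.sum_congr rfl fun l _ => by ring
        linarith
      have h6 : ((∑ l, (m l + c).toNat * x.1 l : ℕ) : ℤ) = ((∑ l, (m l + c).toNat * x.2 l : ℕ) : ℤ) := by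
        push_cast [hw]
        exact h5
      exact_mod_cast h6

/-- the exponents of degree at most `d` -/
noncomputable def DD (n d : ℕ) : Finset (Fin (n + 1) →₀ ℕ) :=
  (Finsupp.finite_of_degree_le (σ := Fin (n + 1)) d).toFinset

theorem mem_DD {d : ℕ} {α : Fin (n + 1) →₀ ℕ} : α ∈ DD n d ↔ ∑ l, α l ≤ d := by
  unfold DD
  rw [Set.Finite.mem_toFinset]
  simp [Finsupp.degree_eq_sum]

/-- **The alternative, with uniform bounds.** -/
theorem alt (n d : ℕ) : ∃ B K : ℕ, ∀ X ⊆ DD n d ×ˢ DD n d, (∀ x ∈ X, ∑ l, x.1 l = ∑ l, x.2 l) →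
    ∀ i j, (∃ w, (∀ l, w l ≤ B) ∧ Wt X i j w) ∨ ∃ (e : ℕ) (k : Pr n → ℤ), (∀ x ∈ X, |k x| ≤ (K : ℤ)) ∧ Qt X i j e k := by
  classical
  have key : ∀ p : Finset (Pr n) × Fin (n + 1) × Fin (n + 1), ∃ b : ℕ,
      (∀ x ∈ p.1, ∑ l, x.1 l = ∑ l, x.2 l) → (∃ w, (∀ l, w l ≤ b) ∧ Wt p.1 p.2.1 p.2.2 w) ∨
        ∃ (e : ℕ) (k : Pr n → ℤ), (∀ x ∈ p.1, |k x| ≤ (b : ℤ)) ∧ Qt p.1 p.2.1 p.2.2 e k := by
    rintro ⟨X, i, j⟩
    by_cases hX : ∀ x ∈ X, ∑ l, x.1 l = ∑ l, x.2 l
    · rcases alt0 X hX i j with ⟨w, hw⟩ | ⟨e, k, hk⟩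
      · refine ⟨∑ l, w l, fun _ => Or.inl ⟨w, fun l => ?_, hw⟩⟩
        exact Finset.single_le_sum (f := w) (fun _ _ => Nat.zero_le _) (Finset.mem_univ l)
      · refine ⟨∑ x ∈ X, (k x).natAbs, fun _ => Or.inr ⟨e, k, fun x hx => ?_, hk⟩⟩
        have h1 := Finset.single_le_sum (f := fun x => (k x).natAbs) (fun _ _ => Nat.zero_le _) hx
        rw [Int.abs_eq_natAbs]
        exact_mod_cast h1
    · exact ⟨0, fun h => absurd h hX⟩
  choose b hb using key
  set P : Finset (Finset (Pr n) × Fin (n + 1) × Fin (n + 1)) :=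
    (DD n d ×ˢ DD n d).powerset ×ˢ (Finset.univ ×ˢ Finset.univ) with hP
  refine ⟨P.sup b, P.sup b, fun X hXD hX i j => ?_⟩
  have hmem : (X, i, j) ∈ P := by
    rw [hP]
    simp [hXD]
  have hle : b (X, i, j) ≤ P.sup b := Finset.le_sup hmem
  rcases hb (X, i, j) hX with ⟨w, hw1, hw2⟩ | ⟨e, k, hk1, hk2⟩
  · exact Or.inl ⟨w, fun l => (hw1 l).trans hle, hw2⟩
  · exact Or.inr ⟨e, k, fun x hx => (hk1 x hx).trans (by exact_mod_cast hle), hk2⟩

/-- a bound for the weights -/
noncomputable def BB (n d : ℕ) : ℕ := (alt n d).choose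

/-- a bound for the quotients -/
noncomputable def KK (n d : ℕ) : ℕ := (alt n d).choose_spec.choose

theorem alt' (n d : ℕ) : ∀ X ⊆ DD n d ×ˢ DD n d, (∀ x ∈ X, ∑ l, x.1 l = ∑ l, x.2 l) →
    ∀ i j, (∃ w, (∀ l, w l ≤ BB n d) ∧ Wt X i j w) ∨
      ∃ (e : ℕ) (k : Pr n → ℤ), (∀ x ∈ X, |k x| ≤ (KK n d : ℤ)) ∧ Qt X i j e k :=
  (alt n d).choose_spec.choose_spec

end Run7.h34.OK
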