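import Pool.Agent.Run7.h34.OK.Fam
import Pool.Agent.Run7.h34.OK.Slots

/-!
Entire curves with high multiplicities: they are constant or there is a weight.
-/

set_option autoImplicit false

namespace Run7.h34.OK

open Finset MvPolynomial
open Pool.Agent.H159R3.NV (ent_eq_zero_or)

variable {n : ℕ}

/-- the functions of the monomials -/
noncomputable def mf (y : Fin (n + 1) → ℂ → ℂ) (P : MvPolynomial (Fin (n + 1)) ℂ)
    (α : Fin (n + 1) →₀ ℕ) (z : ℂ) : ℂ := P.coeff α * ∏ l, y l z ^ α l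

theorem mf_diff {y : Fin (n + 1) → ℂ → ℂ} (hy : ∀ j, Differentiable ℂ (y j))
    (P : MvPolynomial (Fin (n + 1)) ℂ) (α : Fin (n + 1) →₀ ℕ) : Differentiable ℂ (mf y P α) :=
  (Differentiable.fun_finsetProd fun l _ => (hy l).pow _).const_mul _

theorem mf_ord {y : Fin (n + 1) → ℂ → ℂ} (hy : ∀ j, Differentiable ℂ (y j))
    {P : MvPolynomial (Fin (n + 1)) ℂ} {α : Fin (n + 1) →₀ ℕ} (hα : P.coeff α ≠ 0) (z : ℂ) :
    analyticOrderAt (mf y P α) z = ∑ l, (α l : ℕ∞) * analyticOrderAt (y l) z := by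
  have e : mf y P α = (fun _ => P.coeff α) * fun z => ∏ l, (y l ^ α l) z := by
    funext w
    simp [mf]
  have h1 : analyticOrderAt (fun _ : ℂ => P.coeff α) z = 0 := by
    rw [analyticOrderAt_eq_zero]
    right
    exact hα
  rw [e, analyticOrderAt_mul analyticAt_const (Finset.analyticAt_fun_prod _ fun l _ =>
    ((hy l).analyticAt z).pow _), h1, zero_add, Pool.Agent.W602.NC.ord_prod _ _ _
      (fun l _ => ((hy l).analyticAt z).pow _)]
  refine Finset.sum_congr rfl fun l _ => ?_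
  rw [analyticOrderAt_pow ((hy l).analyticAt z), nsmul_eq_mul]

theorem eval_mf (y : Fin (n + 1) → ℂ → ℂ) (P : MvPolynomial (Fin (n + 1)) ℂ) (z : ℂ) :
    eval (fun l => y l z) P = ∑ α ∈ P.support, mf y P α z := eval_eq' _ _

/-- **Entire curves with high multiplicities.** -/
theorem smt (n d : ℕ) : ∃ m0 : ℕ, ∀ (y : Fin (n + 1) → ℂ → ℂ), (∀ j, Differentiable ℂ (y j)) →
    (∀ z, ∃ j, y j z ≠ 0) → (∀ z j, y j z = 0 → (m0 : ℕ∞) ≤ analyticOrderAt (y j) z) →
    ∀ PP : Set (MvPolynomial (Fin (n + 1)) ℂ), (∀ P ∈ PP, ∃ e ≤ d, P.IsHomogeneous e) →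
    (∀ P ∈ PP, ∀ z, eval (fun j => y j z) P = 0) →
    (∀ i j, (∃ z, y j z ≠ 0) → ∃ c, ∀ z, y i z = c * y j z) ∨
    ∃ w : Fin (n + 1) → ℕ, (∀ l, w l ≤ BB n d) ∧
      (∃ i j, (∃ z, y i z ≠ 0) ∧ (∃ z, y j z ≠ 0) ∧ w i ≠ w j) ∧
      ∀ P ∈ PP, ∀ z t, eval (fun l => y l z * t ^ w l) P = 0 := by
  classical
  have hBK := alt' n d
  set B := BB n d
  set K := KK n d
  set c : ℕ := (DD n d).card with hc
  have hc1 : 1 ≤ c := Finset.card_pos.2 ⟨0, mem_DD.2 (by simp)⟩
  refine ⟨(c ^ (c * c * K)) ^ 4, ?_⟩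
  set M : ℕ := (c ^ (c * c * K)) ^ 4 with hMdef
  intro y hy hcz hm PP hPP hPy
  set X : Finset (Pr n) := (DD n d ×ˢ DD n d).filter fun x => x.1 ≠ x.2 ∧ ∃ P ∈ PP,
    ∃ Bk ⊆ P.support, Blk (mf y P) Bk ∧ x.1 ∈ Bk ∧ x.2 ∈ Bk with hX
  have hXD : X ⊆ DD n d ×ˢ DD n d := Finset.filter_subset _ _
  have hXdeg : ∀ x ∈ X, ∑ l, x.1 l = ∑ l, x.2 l := by
    intro x hx
    obtain ⟨-, -, P, hP, Bk, hBk, -, h1, h2⟩ := Finset.mem_filter.1 hx
    obtain ⟨e, -, he⟩ := hPP P hP
    rw [homog_deg he (mem_support_iff.1 (hBk h1)), homog_deg he (mem_support_iff.1 (hBk h2))]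
  by_cases hw : ∃ i j, (∃ z, y i z ≠ 0) ∧ (∃ z, y j z ≠ 0) ∧
      ∃ w : Fin (n + 1) → ℕ, (∀ l, w l ≤ B) ∧ Wt X i j w
  · right
    obtain ⟨i, j, hi, hj, w, hwB, hw1, hw2⟩ := hw
    refine ⟨w, hwB, ⟨i, j, hi, hj, hw1⟩, ?_⟩
    intro P hP z t
    obtain ⟨e, hed, he⟩ := hPP P hP
    have hlev := fun r => level (mf y P) (fun α => ∑ l, w l * α l) r P.support (by
      funext z
      rw [Finset.sum_apply, ← eval_mf]
      exact hPy P hP z) (by
      intro Bk hBk hblk α hα β hβ
      by_cases hαβ : α = β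
      · rw [hαβ]
      · refine hw2 (α, β) ?_
        rw [hX, Finset.mem_filter]
        refine ⟨Finset.mem_product.2 ⟨mem_DD.2 ?_, mem_DD.2 ?_⟩, hαβ, P, hP, Bk, hBk, hblk, hα, hβ⟩
        · rw [homog_deg he (mem_support_iff.1 (hBk hα))]
          exact hed
        · rw [homog_deg he (mem_support_iff.1 (hBk hβ))]
          exact hed)
    rw [eval_eq']
    have h1 : ∀ α ∈ P.support, P.coeff α * ∏ l, (y l z * t ^ w l) ^ α l =
        mf y P α z * t ^ (∑ l, w l * α l) := by
      intro α _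
      unfold mf
      rw [← Finset.prod_pow_eq_pow_sum, mul_assoc, ← Finset.prod_mul_distrib]
      congr 1
      refine Finset.prod_congr rfl fun l _ => ?_
      rw [mul_pow, pow_mul]
    rw [Finset.sum_congr rfl h1, ← Finset.sum_fiberwise_of_maps_to (g := fun α : Fin (n + 1) →₀ ℕ =>
      ∑ l, w l * α l) (t := P.support.image fun α => ∑ l, w l * α l)
      (fun α hα => Finset.mem_image_of_mem _ hα)]
    apply Finset.sum_eq_zero
    intro r _
    have h2 : ∀ α ∈ P.support.filter (fun α => ∑ l, w l * α l = r),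
        mf y P α z * t ^ (∑ l, w l * α l) = mf y P α z * t ^ r := by
      intro α hα
      rw [(Finset.mem_filter.1 hα).2]
    rw [Finset.sum_congr rfl h2, ← Finset.sum_mul]
    have h3 := congrFun (hlev r) z
    rw [Finset.sum_apply] at h3
    rw [h3]
    simp
  · left
    -- the quotients
    have hq : ∀ i j, (∃ z, y i z ≠ 0) → (∃ z, y j z ≠ 0) → ∃ (e : ℕ)
        (a b : {x // x ∈ X} × Fin K → Fin (n + 1) →₀ ℕ), 1 ≤ e ∧
        (∀ t, a t = t.1.1.1 ∨ a t = t.1.1.2) ∧ (∀ t, b t = t.1.1.1 ∨ b t = t.1.1.2) ∧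
        ∀ l, ∑ t, a t l + e * (if l = j then 1 else 0) =
          ∑ t, b t l + e * (if l = i then 1 else 0) := by
      intro i j hi hj
      rcases hBK X hXD hXdeg i j with ⟨w, hw1, hw2⟩ | ⟨e, k, hk, hQ⟩
      · exact absurd ⟨i, j, hi, hj, w, hw1, hw2⟩ hw
      · obtain ⟨a, b, ha, hb, hab⟩ := slots X K hk hQ
        exact ⟨e, a, b, hQ.1, ha, hb, hab⟩
    have hch : ∀ x : {x // x ∈ X}, ∃ P ∈ PP, ∃ Bk ⊆ P.support, Blk (mf y P) Bk ∧
        x.1.1 ∈ Bk ∧ x.1.2 ∈ Bk := fun x => (Finset.mem_filter.1 x.2).2.2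
    choose P hP Bk hBk hblk hx1 hx2 using hch
    have hmem : ∀ (a : {x // x ∈ X} × Fin K → Fin (n + 1) →₀ ℕ),
        (∀ t, a t = t.1.1.1 ∨ a t = t.1.1.2) → ∀ t, a t ∈ Bk t.1 := by
      intro a ha t
      rcases ha t with h | h <;> rw [h]
      · exact hx1 _
      · exact hx2 _
    have hcoef : ∀ (x : {x // x ∈ X}), ∀ α ∈ Bk x, (P x).coeff α ≠ 0 := fun x α hα =>
      mem_support_iff.1 (hBk x hα)
    have hnef : ∀ (x : {x // x ∈ X}), ∀ α ∈ Bk x, ∃ z, mf y (P x) α z ≠ 0 := by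
      intro x α hα
      by_contra hcon
      push Not at hcon
      have h1 := (hblk x).2.2 {α} (Finset.singleton_subset_iff.2 hα) (Finset.singleton_nonempty α)
        (by rw [Finset.sum_singleton]; funext z; exact hcon z)
      have h2 := hx1 x
      have h3 := hx2 x
      rw [← h1, Finset.mem_singleton] at h2 h3
      exact (Finset.mem_filter.1 x.2).2.1 (h2.trans h3.symm)
    have hbig : ∀ i j (e : ℕ) (a b : {x // x ∈ X} × Fin K → Fin (n + 1) →₀ ℕ), 1 ≤ e →
        (∀ t, a t = t.1.1.1 ∨ a t = t.1.1.2) → (∀ t, b t = t.1.1.1 ∨ b t = t.1.1.2) →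
        (∀ l, ∑ t, a t l + e * (if l = j then 1 else 0) =
          ∑ t, b t l + e * (if l = i then 1 else 0)) →
        ∀ z, y i z = 0 → y j z ≠ 0 →
        (M : ℕ∞) + ∑ t, analyticOrderAt (mf y (P t.1) (b t)) z ≤
          ∑ t, analyticOrderAt (mf y (P t.1) (a t)) z := by
      intro i j e a b he ha hb hab z hi hj
      have hsum : ∀ (a : {x // x ∈ X} × Fin K → Fin (n + 1) →₀ ℕ),
          (∀ t, a t = t.1.1.1 ∨ a t = t.1.1.2) →
          ∑ t, analyticOrderAt (mf y (P t.1) (a t)) z =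
            ∑ l, ((∑ t, a t l : ℕ) : ℕ∞) * analyticOrderAt (y l) z := by
        intro a ha
        rw [Finset.sum_congr rfl fun t _ => mf_ord hy (hcoef t.1 _ (hmem a ha t)) z,
          Finset.sum_comm]
        refine Finset.sum_congr rfl fun l _ => ?_
        rw [Nat.cast_sum, Finset.sum_mul]
      rw [hsum a ha, hsum b hb]
      have h0 : analyticOrderAt (y j) z = 0 := ((hy j).analyticAt z).analyticOrderAt_eq_zero.mpr hj
      have h1 := hm z i hi
      have h2 : ∑ l, ((∑ t, a t l + e * (if l = j then 1 else 0) : ℕ) : ℕ∞) *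
          analyticOrderAt (y l) z = ∑ l, ((∑ t, b t l + e * (if l = i then 1 else 0) : ℕ) : ℕ∞) *
          analyticOrderAt (y l) z := by
        refine Finset.sum_congr rfl fun l _ => ?_
        rw [hab l]
      have h3 : ∀ (a : {x // x ∈ X} × Fin K → Fin (n + 1) →₀ ℕ) (j : Fin (n + 1)),
          ∑ l, ((∑ t, a t l + e * (if l = j then 1 else 0) : ℕ) : ℕ∞) * analyticOrderAt (y l) z =
          ∑ l, ((∑ t, a t l : ℕ) : ℕ∞) * analyticOrderAt (y l) z +
            (e : ℕ∞) * analyticOrderAt (y j) z := by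
        intro a j
        have : ∀ l, ((∑ t, a t l + e * (if l = j then 1 else 0) : ℕ) : ℕ∞) *
            analyticOrderAt (y l) z = ((∑ t, a t l : ℕ) : ℕ∞) * analyticOrderAt (y l) z +
              (if l = j then (e : ℕ∞) * analyticOrderAt (y l) z else 0) := by
          intro l
          rw [Nat.cast_add, add_mul]
          congr 1
          split_ifs with h <;> simp
        rw [Finset.sum_congr rfl fun l _ => this l, Finset.sum_add_distrib]
        simp
      rw [h3, h3, h0, mul_zero, add_zero] at h2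
      rw [h2, add_comm]
      gcongr
      calc (M : ℕ∞) ≤ analyticOrderAt (y i) z := h1
        _ = 1 * analyticOrderAt (y i) z := (one_mul _).symm
        _ ≤ (e : ℕ∞) * analyticOrderAt (y i) z := by
          gcongr
          exact_mod_cast he
    have hcard : (∏ t : {x // x ∈ X} × Fin K, (Bk t.1).card) ^ 4 ≤ M := by
      rw [hMdef]
      apply Nat.pow_le_pow_left
      have h1 : ∀ x, (Bk x).card ≤ c := by
        intro x
        refine Finset.card_le_card fun α hα => ?_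
        obtain ⟨e, hed, he⟩ := hPP _ (hP x)
        rw [mem_DD, homog_deg he (hcoef x α hα)]
        exact hed
      calc ∏ t : {x // x ∈ X} × Fin K, (Bk t.1).card ≤ ∏ _t : {x // x ∈ X} × Fin K, c :=
            Finset.prod_le_prod' fun t _ => h1 t.1
        _ = c ^ (X.card * K) := by simp
        _ ≤ c ^ (c * c * K) := by
          apply Nat.pow_le_pow_right hc1
          apply Nat.mul_le_mul_right
          have := Finset.card_le_card hXD
          rwa [Finset.card_product] at this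
    intro i j hj
    by_cases hi : ∃ z, y i z ≠ 0
    swap
    · push Not at hi
      exact ⟨0, fun z => by rw [hi z, zero_mul]⟩
    obtain ⟨e, a, b, he, ha, hb, hab⟩ := hq i j hi hj
    obtain ⟨c', hc'⟩ := family (fun t : {x // x ∈ X} × Fin K => Bk t.1)
      (fun t => mf y (P t.1)) (fun t α => mf_diff hy _ α) (fun t => hblk t.1)
      (fun t α hα => hnef t.1 α hα) M hcard (by
        rintro z ⟨t, α, hα, hz⟩
        have h1 := hnef t.1 α hα
        have h2 : ∏ l, y l z ^ α l = 0 := (mul_eq_zero.1 hz).resolve_left (hcoef t.1 α hα)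
        obtain ⟨l, -, hl⟩ := Finset.prod_eq_zero_iff.1 h2
        have hl0 : α l ≠ 0 := by
          intro h0
          rw [h0, pow_zero] at hl
          exact one_ne_zero hl
        have hlz : y l z = 0 := pow_eq_zero_iff hl0 |>.1 hl
        have hlne : ∃ z, y l z ≠ 0 := by
          obtain ⟨w, hw⟩ := h1
          refine ⟨w, fun h0 => hw ?_⟩
          unfold mf
          rw [Finset.prod_eq_zero (Finset.mem_univ l) (by rw [h0, zero_pow hl0]), mul_zero]
        obtain ⟨j', hj'⟩ := hcz z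
        obtain ⟨e1, a1, b1, he1, ha1, hb1, hab1⟩ := hq l j' hlne ⟨z, hj'⟩
        exact ⟨a1, b1, hmem a1 ha1, hmem b1 hb1, hbig l j' e1 a1 b1 he1 ha1 hb1 hab1 z hlz hj'⟩)
      a b (hmem a ha) (hmem b hb)
    -- conclusion
    have hprod : ∀ (a : {x // x ∈ X} × Fin K → Fin (n + 1) →₀ ℕ) z,
        ∏ t, mf y (P t.1) (a t) z = (∏ t, (P t.1).coeff (a t)) * ∏ l, y l z ^ (∑ t, a t l) := by
      intro a z
      unfold mf
      rw [Finset.prod_mul_distrib, Finset.prod_comm]
      congr 1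
      refine Finset.prod_congr rfl fun l _ => ?_
      rw [Finset.prod_pow_eq_pow_sum]
    have hpow : ∀ (a : {x // x ∈ X} × Fin K → Fin (n + 1) →₀ ℕ) (j : Fin (n + 1)) z,
        ∏ l, y l z ^ (∑ t, a t l + e * (if l = j then 1 else 0)) =
          (∏ l, y l z ^ (∑ t, a t l)) * y j z ^ e := by
      intro a j z
      have : ∀ l, y l z ^ (∑ t, a t l + e * (if l = j then 1 else 0)) =
          y l z ^ (∑ t, a t l) * (if l = j then y l z ^ e else 1) := by
        intro l
        rw [pow_add]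
        congr 1
        split_ifs with h <;> simp
      rw [Finset.prod_congr rfl fun l _ => this l, Finset.prod_mul_distrib]
      simp
    have hCa : ∏ t, (P t.1).coeff (a t) ≠ 0 :=
      Finset.prod_ne_zero_iff.2 fun t _ => hcoef t.1 _ (hmem a ha t)
    set Ca := ∏ t, (P t.1).coeff (a t) with hCadef
    set Cb := ∏ t, (P t.1).coeff (b t) with hCbdef
    have hrel : ∀ z, (∏ l, y l z ^ (∑ t, b t l)) * (y i z ^ e - (c' * Cb / Ca) * y j z ^ e) = 0 := by
      intro z
      have h1 := hc' z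
      rw [hprod a z, hprod b z] at h1
      have h2 : (∏ l, y l z ^ (∑ t, a t l)) * y j z ^ e = (∏ l, y l z ^ (∑ t, b t l)) * y i z ^ e := by
        rw [← hpow a j z, ← hpow b i z]
        exact Finset.prod_congr rfl fun l _ => by rw [hab l]
      rw [← hCadef, ← hCbdef] at h1
      have h3 : (∏ l, y l z ^ (∑ t, a t l)) = c' * Cb / Ca * ∏ l, y l z ^ (∑ t, b t l) := by
        field_simp
        linear_combination h1
      rw [mul_sub, ← h2, h3]
      ring
    have hQb : Differentiable ℂ (fun z => ∏ l, y l z ^ (∑ t, b t l)) :=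
      Differentiable.fun_finsetProd fun l _ => (hy l).pow _
    have hRd : Differentiable ℂ (fun z => y i z ^ e - (c' * Cb / Ca) * y j z ^ e) :=
      ((hy i).pow _).sub (((hy j).pow _).const_mul _)
    rcases ent_eq_zero_or hQb hRd hrel with h | h
    · exfalso
      obtain ⟨z, hz⟩ := prod_ne Finset.univ (fun t => mf y (P t.1) (b t))
        (fun t => mf_diff hy _ _) (fun t _ => hnef t.1 _ (hmem b hb t))
      apply hz
      rw [hprod b z]
      have := congrFun h z
      simp only [Pi.zero_apply] at this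
      rw [this, mul_zero]
    · exact prop_of_pow (hy i) (hy j) hj he (c := c' * Cb / Ca) (fun z => by
        have := congrFun h z
        simp only [Pi.zero_apply] at this
        exact sub_eq_zero.1 this)

/-- a bound for the multiplicities -/
noncomputable def M0 (n d : ℕ) : ℕ := (smt n d).choose + 1

theorem one_le_M0 (n d : ℕ) : 1 ≤ M0 n d := Nat.le_add_left 1 _

theorem smt' (n d : ℕ) : ∀ (y : Fin (n + 1) → ℂ → ℂ), (∀ j, Differentiable ℂ (y j)) →
    (∀ z, ∃ j, y j z ≠ 0) → (∀ z j, y j z = 0 → (M0 n d : ℕ∞) ≤ analyticOrderAt (y j) z) →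
    ∀ PP : Set (MvPolynomial (Fin (n + 1)) ℂ), (∀ P ∈ PP, ∃ e ≤ d, P.IsHomogeneous e) →
    (∀ P ∈ PP, ∀ z, eval (fun j => y j z) P = 0) →
    (∀ i j, (∃ z, y j z ≠ 0) → ∃ c, ∀ z, y i z = c * y j z) ∨
    ∃ w : Fin (n + 1) → ℕ, (∀ l, w l ≤ BB n d) ∧
      (∃ i j, (∃ z, y i z ≠ 0) ∧ (∃ z, y j z ≠ 0) ∧ w i ≠ w j) ∧
      ∀ P ∈ PP, ∀ z t, eval (fun l => y l z * t ^ w l) P = 0 :=
  fun y hy hcz hm => (smt n d).choose_spec y hy hcz fun z j hj =>
    le_trans (by exact_mod_cast Nat.le_succ _) (hm z j hj)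

end Run7.h34.OK
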