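import Pool.Agent.Q72.OK.Def

/-!
Definitions for the equivalence of finiteness of integral points and degeneracy of orbifold curves
(complements to `Pool/Agent/Q72/OK/Def.lean`).
-/

set_option autoImplicit false

namespace Run7.h34.OK

open MvPolynomial Set Pool.Agent.Q72.OK
open scoped NumberField LinearAlgebra.Projectivization

variable {K : Type} [Field K] {ι κ : Type} {n : ℕ}

/-- the complex points of the projective set over `K` given by the forms `F i` -/
noncomputable def cpts (σ : K →+* ℂ) (F : ι → MvPolynomial (Fin (n + 1)) (𝓞 K)) :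
    Set (ℙ ℂ (Fin (n + 1) → ℂ)) :=
  zeroSet (Set.range fun i => (F i).map (σ.comp (algebraMap (𝓞 K) K)))

/-- `f` is a holomorphic map from `ℂ` to `P^n` that meets the hyperplane `ℓ i = 0`, for each `i`,
only with multiplicities at least `m i` (or lies in it). For `m i = ∞` this says that `f` lies in the
hyperplane or does not meet it; for `m i = 0` it is no condition. -/
def OrbifoldMap (m : Fin (n + 1) → ℕ∞) (ℓ : (Fin (n + 1) → ℂ) ≃ₗ[ℂ] (Fin (n + 1) → ℂ))
    (f : ℂ → ℙ ℂ (Fin (n + 1) → ℂ)) : Prop :=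
  ∀ z, ∃ (W : Set ℂ) (x : ℂ → Fin (n + 1) → ℂ), IsOpen W ∧ z ∈ W ∧ DifferentiableOn ℂ x W ∧
    (∀ w ∈ W, ∃ h : x w ≠ 0, f w = Projectivization.mk ℂ (x w) h) ∧
    ∀ w ∈ W, ∀ i, ℓ (x w) i = 0 → m i ≤ analyticOrderAt (fun u => ℓ (x u) i) w

/-- Every nonconstant holomorphic map from `ℂ` to the projective variety `V` that meets the
hyperplanes `ℓ i = 0` only with multiplicities at least `m i` (or lies in them) has its values in
`V'`. -/
def OrbCurvesIn (σ : K →+* ℂ) (F : ι → MvPolynomial (Fin (n + 1)) (𝓞 K))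
    (G : κ → MvPolynomial (Fin (n + 1)) (𝓞 K)) (m : Fin (n + 1) → ℕ∞)
    (ℓ : (Fin (n + 1) → ℂ) ≃ₗ[ℂ] (Fin (n + 1) → ℂ)) : Prop :=
  ∀ f : ℂ → ℙ ℂ (Fin (n + 1) → ℂ), OrbifoldMap m ℓ f → (∀ z, f z ∈ cpts σ F) →
    (∃ z w, f z ≠ f w) → ∀ z, f z ∈ cpts σ G

/-- `IntegralFinite` for the system of the coordinate hyperplanes: for all number fields `L` over `K`
and all finitely generated groups `Γ`, only finitely many points of `V` outside of `V'` have
homogeneous coordinates which are all zero or in `Γ`. -/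
def CoordFinite (F : ι → MvPolynomial (Fin (n + 1)) (𝓞 K))
    (G : κ → MvPolynomial (Fin (n + 1)) (𝓞 K)) : Prop :=
  ∀ (L : Type) [Field L] [NumberField L] [Algebra K L] (Γ : Subgroup Lˣ), Γ.FG →
    (integralPts F G L (LinearEquiv.refl L (Fin (n + 1) → L)) Γ).Finite

/-- All monomial curves `t ↦ S (x_0 t ^ k_0, ..., x_n t ^ k_n)` of degree at most `B` in `V`, for the
given linear automorphism `S`, lie in `V'`. -/
def MonCurvesInAt (σ : K →+* ℂ) (F : ι → MvPolynomial (Fin (n + 1)) (𝓞 K))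
    (G : κ → MvPolynomial (Fin (n + 1)) (𝓞 K)) (B : ℕ)
    (S : (Fin (n + 1) → ℂ) ≃ₗ[ℂ] (Fin (n + 1) → ℂ)) : Prop :=
  ∀ (x : Fin (n + 1) → ℂ) (k : Fin (n + 1) → ℕ), MonCurve σ F B S x k → ∀ t : ℂ, t ≠ 0 → ∀ l,
    eval₂ (σ.comp (algebraMap (𝓞 K) K)) (S fun j => x j * t ^ k j) (G l) = 0

/-- Condition (i): every nonconstant holomorphic map from `ℂ` to the projective variety `V` has its
values in `V'`. (`OrbCurvesIn` without condition on the multiplicities.) -/
def EntireCurvesIn (σ : K →+* ℂ) (F : ι → MvPolynomial (Fin (n + 1)) (𝓞 K))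
    (G : κ → MvPolynomial (Fin (n + 1)) (𝓞 K)) : Prop :=
  OrbCurvesIn σ F G 0 (LinearEquiv.refl ℂ (Fin (n + 1) → ℂ))

/-- Condition (ii) for the projective variety `V`: for all number fields `L` over `K`, the
`L`-rational points of `V` outside of `V'` are finite in number. -/
def RationalFinite (F : ι → MvPolynomial (Fin (n + 1)) (𝓞 K))
    (G : κ → MvPolynomial (Fin (n + 1)) (𝓞 K)) : Prop :=
  ∀ (L : Type) [Field L] [NumberField L] [Algebra K L],
    {P : ℙ L (Fin (n + 1) → L) | ∃ (x : Fin (n + 1) → L) (h : x ≠ 0),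
      P = Projectivization.mk L x h ∧
      (∀ i, eval₂ ((algebraMap K L).comp (algebraMap (𝓞 K) K)) x (F i) = 0) ∧
      ∃ l, eval₂ ((algebraMap K L).comp (algebraMap (𝓞 K) K)) x (G l) ≠ 0}.Finite

/-- the pullback of the variety `V` by `(x_0 : ... : x_n) ↦ (x_0 ^ m : ... : x_n ^ m)`: the forms
`F i (x_0 ^ m, ..., x_n ^ m)` -/
noncomputable def powForms (m : ℕ) (F : ι → MvPolynomial (Fin (n + 1)) (𝓞 K)) :
    ι → MvPolynomial (Fin (n + 1)) (𝓞 K) := fun i => expand m (F i)

/-- the form `1`, which has no zero: the equation of `V' = ∅` -/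
noncomputable def oneForm (K : Type) [Field K] (n : ℕ) : Unit → MvPolynomial (Fin (n + 1)) (𝓞 K) :=
  fun _ => 1

end Run7.h34.OK
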