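import Pool.Agent.Run7.h34.OK.Sep

/-!
The product of several families of entire functions which are minimal vanishing sums.
-/

set_option autoImplicit false

namespace Run7.h34.OK

open Finset
open Pool.Agent.W602.NC (ord_prod)
open Pool.Agent.H159R3.NV (ent_eq_zero_or)

theorem ord_ne_top {f : ℂ → ℂ} (hf : Differentiable ℂ f) (h0 : ∃ z, f z ≠ 0) (x : ℂ) :
    analyticOrderAt f x ≠ ⊤ := by
  obtain ⟨z, hz⟩ := h0
  intro h
  have h1 := AnalyticOnNhd.analyticOrderAt_ne_top_of_isPreconnected (f := f) (U := Set.univ)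
    (fun z _ => hf.analyticAt z) isPreconnected_univ (x := z) (y := x) (Set.mem_univ _)
    (Set.mem_univ _) (by rw [(hf.analyticAt z).analyticOrderAt_eq_zero.mpr hz]; simp)
  exact h1 h

/-- Products of several minimal vanishing sums of entire functions: if at each zero some quotient
of products has a zero of order at least `M` then the products are proportional. -/
theorem family {T : Type} [Fintype T] {ι : Type} (B : T → Finset ι) (f : T → ι → ℂ → ℂ)
    (hf : ∀ t i, Differentiable ℂ (f t i)) (hblk : ∀ t, Blk (f t) (B t))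
    (hne : ∀ t, ∀ i ∈ B t, ∃ z, f t i z ≠ 0) (M : ℕ) (hM : (∏ t, (B t).card) ^ 4 ≤ M)
    (hord : ∀ z, (∃ t, ∃ i ∈ B t, f t i z = 0) → ∃ a b : T → ι, (∀ t, a t ∈ B t) ∧
      (∀ t, b t ∈ B t) ∧ (M : ℕ∞) + ∑ t, analyticOrderAt (f t (b t)) z ≤
        ∑ t, analyticOrderAt (f t (a t)) z)
    (a b : T → ι) (ha : ∀ t, a t ∈ B t) (hb : ∀ t, b t ∈ B t) :
    ∃ c : ℂ, ∀ z, ∏ t, f t (a t) z = c * ∏ t, f t (b t) z := by
  classical
  have hrem := fun t => remove' (B t) (f t) (fun i _ => hf t i) (by
    obtain ⟨i, hi⟩ := (hblk t).1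
    exact ⟨i, hi, hne t i hi⟩)
  choose q v hq hv hfac hcz using hrem
  have hvne : ∀ t, ∀ i ∈ B t, ∃ z, v t i z ≠ 0 := by
    intro t i hi
    obtain ⟨z, hz⟩ := hne t i hi
    rw [hfac t i hi] at hz
    exact ⟨z, right_ne_zero_of_mul hz⟩
  have hqne : ∀ t, ∃ z, q t z ≠ 0 := by
    intro t
    obtain ⟨i, hi⟩ := (hblk t).1
    obtain ⟨z, hz⟩ := hne t i hi
    rw [hfac t i hi] at hz
    exact ⟨z, left_ne_zero_of_mul hz⟩
  -- the family
  set g : (∀ t, {i // i ∈ B t}) → ℂ → ℂ := fun a z => ∏ t, v t (a t) z with hg
  have hgd : ∀ a, Differentiable ℂ (g a) := fun a =>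
    Differentiable.fun_finsetProd fun t _ => hv t _ (a t).2
  have hgne : ∀ a, ∃ z, g a z ≠ 0 := fun a =>
    prod_ne Finset.univ (fun t => v t (a t)) (fun t => hv t _ (a t).2)
      fun t _ => hvne t _ (a t).2
  have hgord : ∀ a z, analyticOrderAt (g a) z = ∑ t, analyticOrderAt (v t (a t)) z := fun a z =>
    ord_prod _ _ _ (fun t _ => (hv t _ (a t).2).analyticAt z)
  have hford : ∀ t, ∀ i ∈ B t, ∀ z, analyticOrderAt (f t i) z =
      analyticOrderAt (q t) z + analyticOrderAt (v t i) z := by
    intro t i hi z
    have e : f t i = q t * v t i := funext fun w => hfac t i hi w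
    rw [e, analyticOrderAt_mul ((hq t).analyticAt z) ((hv t i hi).analyticAt z)]
  have hprop := sep g hgd hgne (M := M) (by
      intro z
      choose i hi hiz using fun t => hcz t z
      exact ⟨fun t => ⟨i t, hi t⟩, Finset.prod_ne_zero_iff.2 fun t _ => hiz t⟩) (by
      rintro z ⟨a0, ha0⟩
      obtain ⟨t, -, ht⟩ := Finset.prod_eq_zero_iff.1 ha0
      obtain ⟨a1, b1, ha1, hb1, hab⟩ := hord z ⟨t, a0 t, (a0 t).2, by
        rw [hfac t _ (a0 t).2, ht, mul_zero]⟩
      refine ⟨fun t => ⟨a1 t, ha1 t⟩, ?_⟩
      rw [hgord]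
      simp only
      rw [Finset.sum_congr rfl fun t _ => hford t _ (hb1 t) z,
        Finset.sum_congr rfl fun t _ => hford t _ (ha1 t) z, Finset.sum_add_distrib,
        Finset.sum_add_distrib] at hab
      have hfin : ∑ t, analyticOrderAt (q t) z ≠ ⊤ := by
        rw [Ne, ENat.sum_eq_top]
        push Not
        intro t _
        exact ord_ne_top (hq t) (hqne t) z
      have h2 : ∑ t, analyticOrderAt (q t) z + (M : ℕ∞) ≤
          ∑ t, analyticOrderAt (q t) z + ∑ t, analyticOrderAt (v t (a1 t)) z := by
        refine le_trans ?_ hab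
        rw [add_comm (M : ℕ∞), add_assoc]
        gcongr
        exact le_add_self
      exact (ENat.add_le_add_iff_left hfin).1 h2) (by
      rw [Fintype.card_pi]
      simpa using hM) (by
      intro κ hκ1 hκ2
      obtain ⟨a0, ha0, t, α, hα⟩ := cross κ hκ1 hκ2
      set h : ℂ → ℂ := fun z => ∏ s ∈ Finset.univ.erase t, v s (a0 s) z with hh
      have hhd : Differentiable ℂ h := Differentiable.fun_finsetProd fun s _ => hv s _ (a0 s).2
      have hhne : ∃ z, h z ≠ 0 :=
        prod_ne _ (fun t => v t (a0 t)) (fun t => hv t _ (a0 t).2) fun t _ => hvne t _ (a0 t).2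
      have hgu : ∀ (i : {i // i ∈ B t}) z, g (Function.update a0 t i) z = v t i z * h z := by
        intro i z
        rw [hg, hh]
        simp only
        rw [← Finset.mul_prod_erase Finset.univ _ (Finset.mem_univ t)]
        rw [Function.update_self]
        congr 1
        refine Finset.prod_congr rfl fun s hs => ?_
        rw [Function.update_of_ne (Finset.ne_of_mem_erase hs)]
      have hzero : ∀ A' ⊆ B t, (∀ z, ∑ i ∈ A', v t i z = 0) ↔ ∑ i ∈ A', f t i = 0 := by
        intro A' hA'
        have hd : Differentiable ℂ (fun z => ∑ i ∈ A', v t i z) :=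
          Differentiable.fun_sum fun i hi => hv t i (hA' hi)
        have e : ∀ z, ∑ i ∈ A', f t i z = q t z * ∑ i ∈ A', v t i z := by
          intro z
          rw [Finset.mul_sum]
          exact Finset.sum_congr rfl fun i hi => hfac t i (hA' hi) z
        constructor
        · intro h0
          funext z
          rw [Finset.sum_apply, e, h0, mul_zero]
          rfl
        · intro h0
          rcases ent_eq_zero_or (hq t) hd (fun z => by
            rw [← e, ← Finset.sum_apply, h0]; rfl) with h1 | h1
          · obtain ⟨z, hz⟩ := hqne t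
            exact absurd (congrFun h1 z) hz
          · exact fun z => congrFun h1 z
      refine ⟨{i // i ∈ B t}, Finset.univ, Function.update a0 t, Function.update_injective a0 t,
        ?_, ?_⟩
      · intro z
        simp only [hgu]
        rw [← Finset.sum_mul]
        have h1 := (hzero (B t) (Finset.Subset.refl _)).2 (hblk t).2.1 z
        rw [Finset.sum_coe_sort (B t) (fun i => v t i z), h1, zero_mul]
      · intro A' _ hA'
        by_contra hcon
        push Not at hcon
        simp only [hgu] at hcon
        have hd : Differentiable ℂ (fun z => ∑ i ∈ A', v t i z) :=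
          Differentiable.fun_sum fun i _ => hv t _ i.2
        rcases ent_eq_zero_or hd hhd (fun z => by
          have := hcon z
          rwa [← Finset.sum_mul] at this) with h1 | h1
        · have hsub : A'.map (Function.Embedding.subtype _) ⊆ B t := by
            intro i hi
            obtain ⟨j, -, rfl⟩ := Finset.mem_map.1 hi
            exact j.2
          have h2 := (hzero _ hsub).1 (fun z => by
            rw [Finset.sum_map]
            exact congrFun h1 z)
          have h3 := (hblk t).2.2 _ hsub (by
            refine ⟨a0 t, Finset.mem_map.2 ⟨a0 t, ?_, rfl⟩⟩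
            rw [hA' _ (Finset.mem_univ _), Function.update_eq_self]
            exact ha0) h2
          apply hα
          rw [← hA' _ (Finset.mem_univ _)]
          have h4 : (α : ι) ∈ A'.map (Function.Embedding.subtype _) := by rw [h3]; exact α.2
          obtain ⟨j, hj, hjα⟩ := Finset.mem_map.1 h4
          have : j = α := Subtype.ext hjα
          rwa [this] at hj
        · obtain ⟨z, hz⟩ := hhne
          exact hz (congrFun h1 z))
    (fun t => ⟨a t, ha t⟩) (fun t => ⟨b t, hb t⟩)
  obtain ⟨c, hc⟩ := hprop
  refine ⟨c, fun z => ?_⟩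
  have e : ∀ a : T → ι, (∀ t, a t ∈ B t) → ∏ t, f t (a t) z = (∏ t, q t z) * ∏ t, v t (a t) z := by
    intro a ha
    rw [← Finset.prod_mul_distrib]
    exact Finset.prod_congr rfl fun t _ => hfac t _ (ha t) z
  rw [e a ha, e b hb]
  have := hc z
  simp only [hg] at this
  rw [this]
  ring

/-- entire functions with proportional powers are proportional -/
theorem prop_of_pow {u v : ℂ → ℂ} (hu : Differentiable ℂ u) (hv : Differentiable ℂ v)
    (hv0 : ∃ z, v z ≠ 0) {e : ℕ} (he : 1 ≤ e) {c : ℂ} (h : ∀ z, u z ^ e = c * v z ^ e) :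
    ∃ c', ∀ z, u z = c' * v z := by
  obtain ⟨z0, hz0⟩ := hv0
  set w : ℂ → ℂ := fun z => u z / v z with hw
  have hwc : ContinuousAt w z0 := hu.continuous.continuousAt.div hv.continuous.continuousAt hz0
  set R : Finset ℂ := (Polynomial.nthRoots e c).toFinset with hR
  have hwR : ∀ z, v z ≠ 0 → w z ∈ R := by
    intro z hz
    rw [hR, Multiset.mem_toFinset, Polynomial.mem_nthRoots (by omega), hw]
    simp only
    rw [div_pow, h z]
    field_simp
  have hev : ∀ᶠ z in nhds z0, w z = w z0 := by
    have h1 : ∀ᶠ z in nhds z0, w z ∈ ((R.erase (w z0) : Finset ℂ) : Set ℂ)ᶜ :=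
      hwc.eventually_mem (IsOpen.mem_nhds (R.erase (w z0)).finite_toSet.isClosed.isOpen_compl
        (by simp))
    filter_upwards [h1, hv.continuous.continuousAt.eventually_ne hz0] with z hz1 hz2
    by_contra h3
    apply hz1
    rw [Finset.mem_coe, Finset.mem_erase]
    exact ⟨h3, hwR z hz2⟩
  refine ⟨w z0, ?_⟩
  have hd : AnalyticOnNhd ℂ (fun z => u z - w z0 * v z) Set.univ := fun z _ =>
    (hu.sub (hv.const_mul (w z0))).analyticAt z
  have h2 := hd.eqOn_zero_of_preconnected_of_eventuallyEq_zero isPreconnected_univ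
    (Set.mem_univ z0) (by
      filter_upwards [hev, hv.continuous.continuousAt.eventually_ne hz0] with z hz1 hz2
      have : u z = w z * v z := by rw [hw]; simp only; field_simp
      rw [this, hz1]
      simp)
  intro z
  have := h2 (Set.mem_univ z)
  simp only [Pi.zero_apply] at this
  exact sub_eq_zero.1 this

end Run7.h34.OK
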