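import Pool.Agent.Run7.h34.OK.Pow

/-!
Hyperbolicity: the case of the empty set `V'`.
-/

set_option autoImplicit false

namespace Run7.h34.OK

open MvPolynomial Set Pool.Agent.Q72.OK
open scoped NumberField LinearAlgebra.Projectivization

variable {K : Type} [Field K] {ι : Type} {n : ℕ}

theorem oneForm_homog : ∀ l, ∃ e, (oneForm K n l).IsHomogeneous e := fun _ =>
  ⟨0, isHomogeneous_one _ _⟩

theorem eval_oneForm {k : Type} [Field k] (φ : 𝓞 K →+* k) (v : Fin (n + 1) → k) (l : Unit) :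
    eval₂ φ v (oneForm K n l) = 1 := by
  unfold oneForm
  exact eval₂_one _ _

theorem cpts_one (σ : K →+* ℂ) (p : ℙ ℂ (Fin (n + 1) → ℂ)) : p ∉ cpts σ (oneForm K n) := by
  intro h
  have h1 : p = Projectivization.mk ℂ p.rep p.rep_nonzero := p.mk_rep.symm
  rw [h1, mem_cpts σ _ oneForm_homog] at h
  have := h ()
  rw [eval_oneForm] at this
  exact one_ne_zero this

theorem orb_iff (σ : K →+* ℂ) (F : ι → MvPolynomial (Fin (n + 1)) (𝓞 K)) (m : ℕ)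
    (ℓ : (Fin (n + 1) → ℂ) ≃ₗ[ℂ] (Fin (n + 1) → ℂ)) :
    OrbCurvesIn σ F (oneForm K n) (fun _ => m) ℓ ↔
      ∀ f : ℂ → ℙ ℂ (Fin (n + 1) → ℂ), OrbifoldOn m ℓ univ f → (∀ z, f z ∈ cpts σ F) →
        ∀ z w, f z = f w := by
  constructor
  · intro h f hf hfV z w
    by_contra hne
    exact cpts_one σ _ (h f (fun z => hf z (mem_univ z)) hfV ⟨z, w, hne⟩ 0)
  · intro h f hf hfV ⟨z, w, hne⟩
    exact absurd (h f (fun z _ => hf z) hfV z w) hne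

theorem orb_hyp (σ : K →+* ℂ) (F : ι → MvPolynomial (Fin (n + 1)) (𝓞 K))
    (hF : ∀ i, ∃ e, (F i).IsHomogeneous e) (m : ℕ)
    (ℓ : (Fin (n + 1) → ℂ) ≃ₗ[ℂ] (Fin (n + 1) → ℂ)) :
    OrbCurvesIn σ F (oneForm K n) (fun _ => m) ℓ ↔ Hyperbolic m ℓ (cpts σ F) := by
  rw [orb_iff]
  exact kob m ℓ _ (map_homog σ F hF)

theorem monAt_iff (σ : K →+* ℂ) (F : ι → MvPolynomial (Fin (n + 1)) (𝓞 K)) (B : ℕ)
    (S : (Fin (n + 1) → ℂ) ≃ₗ[ℂ] (Fin (n + 1) → ℂ)) : MonCurvesInAt σ F (oneForm K n) B S ↔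
      ∀ x k, ¬ MonCurve σ F B S x k := by
  constructor
  · intro h x k hc
    have := h x k hc 1 one_ne_zero ()
    rw [eval_oneForm] at this
    exact one_ne_zero this
  · intro h x k hc
    exact absurd hc (h x k)

theorem mon_iff (σ : K →+* ℂ) (F : ι → MvPolynomial (Fin (n + 1)) (𝓞 K)) (B : ℕ) :
    MonCurvesIn σ F (oneForm K n) B ↔ ∀ S x k, ¬ MonCurve σ F B S x k := by
  constructor
  · intro h S
    exact (monAt_iff σ F B S).1 (fun x k hc => h S x k hc)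
  · intro h S x k hc
    exact absurd hc (h S x k)

theorem hyp_all [NumberField K] {d : ℕ} [Finite ι] (σ : K →+* ℂ)
    (F : ι → MvPolynomial (Fin (n + 1)) (𝓞 K)) (hF : ∀ i, ∃ e ≤ d, (F i).IsHomogeneous e) :
    List.TFAE [IntegralFinite F (oneForm K n), ∀ S x k, ¬ MonCurve σ F (BB n d) S x k,
      ∀ m ≥ M0 n d, ∀ ℓ, Hyperbolic m ℓ (cpts σ F), ∃ m, ∀ ℓ, Hyperbolic m ℓ (cpts σ F)] := by
  have hF' : ∀ i, ∃ e, (F i).IsHomogeneous e := fun i => by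
    obtain ⟨e, -, he⟩ := hF i
    exact ⟨e, he⟩
  have h1 := tfae_all σ F (oneForm K n) hF oneForm_homog
  have h2 := mon_iff σ F (BB n d)
  have h3 := orb_hyp σ F hF'
  tfae_have 1 ↔ 2 := (h1.out 0 1).trans h2
  have h13 : MonCurvesIn σ F (oneForm K n) (BB n d) ↔
      ∀ m : Fin (n + 1) → ℕ∞, (∀ j, (M0 n d : ℕ∞) ≤ m j) → ∀ ℓ, OrbCurvesIn σ F (oneForm K n) m ℓ :=
    h1.out 1 3
  have h40 : (∃ m, ∀ ℓ, OrbCurvesIn σ F (oneForm K n) m ℓ) ↔ IntegralFinite F (oneForm K n) :=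
    h1.out 4 0
  tfae_have 2 → 3 := fun h m hm ℓ => (h3 m ℓ).1 (h13.1 (h2.2 h) (fun _ => m)
    (fun _ => by exact_mod_cast hm) ℓ)
  tfae_have 3 → 4 := fun h => ⟨_, h _ le_rfl⟩
  tfae_have 4 → 1 := by
    rintro ⟨m, hm⟩
    exact h40.1 ⟨fun _ => m, fun ℓ => (h3 m ℓ).2 (hm ℓ)⟩
  tfae_finish

theorem hyp_coord [NumberField K] {d : ℕ} [Finite ι] (σ : K →+* ℂ)
    (F : ι → MvPolynomial (Fin (n + 1)) (𝓞 K)) (hF : ∀ i, ∃ e ≤ d, (F i).IsHomogeneous e) :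
    List.TFAE [CoordFinite F (oneForm K n),
      ∀ x k, ¬ MonCurve σ F (BB n d) (LinearEquiv.refl ℂ _) x k,
      ∀ m ≥ M0 n d, Hyperbolic m (LinearEquiv.refl ℂ _) (cpts σ F),
      ∃ m, Hyperbolic m (LinearEquiv.refl ℂ _) (cpts σ F)] := by
  have hF' : ∀ i, ∃ e, (F i).IsHomogeneous e := fun i => by
    obtain ⟨e, -, he⟩ := hF i
    exact ⟨e, he⟩
  have h1 := tfae_coord σ F (oneForm K n) hF oneForm_homog
  have h2 := monAt_iff σ F (BB n d) (LinearEquiv.refl ℂ _)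
  have h3 := fun m => orb_hyp σ F hF' m (LinearEquiv.refl ℂ _)
  tfae_have 1 ↔ 2 := (h1.out 0 1).trans h2
  have h13 : MonCurvesInAt σ F (oneForm K n) (BB n d) (LinearEquiv.refl ℂ _) ↔
      ∀ m : Fin (n + 1) → ℕ∞, (∀ j, (M0 n d : ℕ∞) ≤ m j) →
        OrbCurvesIn σ F (oneForm K n) m (LinearEquiv.refl ℂ _) := h1.out 1 3
  have h40 : (∃ m, OrbCurvesIn σ F (oneForm K n) m (LinearEquiv.refl ℂ _)) ↔
      CoordFinite F (oneForm K n) := h1.out 4 0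
  tfae_have 2 → 3 := fun h m hm => (h3 m).1 (h13.1 (h2.2 h) (fun _ => m)
    (fun _ => by exact_mod_cast hm))
  tfae_have 3 → 4 := fun h => ⟨_, h _ le_rfl⟩
  tfae_have 4 → 1 := by
    rintro ⟨m, hm⟩
    exact h40.1 ⟨fun _ => m, (h3 m).2 hm⟩
  tfae_finish

theorem hyp_pow [NumberField K] {d : ℕ} [Finite ι] (σ : K →+* ℂ)
    (F : ι → MvPolynomial (Fin (n + 1)) (𝓞 K)) (hF : ∀ i, ∃ e ≤ d, (F i).IsHomogeneous e)
    {m : ℕ} (hm : M0 n d ≤ m) :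
    List.TFAE [Hyperbolic 0 (LinearEquiv.refl ℂ _) (cpts σ (powForms m F)),
      CoordFinite (powForms m F) (oneForm K n),
      ∀ x k, ¬ MonCurve σ (powForms m F) (BB n d) (LinearEquiv.refl ℂ _) x k] ∧
    (RationalFinite (powForms m F) (oneForm K n) →
      Hyperbolic 0 (LinearEquiv.refl ℂ _) (cpts σ (powForms m F))) := by
  have hF'' : ∀ i, ∃ e, (powForms m F i).IsHomogeneous e := fun i => by
    obtain ⟨e, -, he⟩ := powForms_homog m F hF i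
    exact ⟨e, he⟩
  obtain ⟨h1, h4⟩ := tfae_pow σ F (oneForm K n) hF oneForm_homog hm
  have h2 := monAt_iff σ (powForms m F) (BB n d) (LinearEquiv.refl ℂ _)
  have h3 : EntireCurvesIn σ (powForms m F) (oneForm K n) ↔
      Hyperbolic 0 (LinearEquiv.refl ℂ _) (cpts σ (powForms m F)) :=
    orb_hyp σ (powForms m F) hF'' 0 (LinearEquiv.refl ℂ _)
  refine ⟨?_, fun h => h3.1 (h4 h)⟩
  tfae_have 1 ↔ 2 := h3.symm.trans (h1.out 0 1)
  tfae_have 2 ↔ 3 := (h1.out 1 2).trans h2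
  tfae_finish

end Run7.h34.OK
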