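import Pool.Agent.Q72.OK.Kob
import Pool.Agent.Q72.OK.Lift
import Pool.Agent.Q185.OK.H
import Pool.Agent.N459.JS.Weier

/-!
Project OK, jobs LIFT and KOB: entire lifts of orbifold curves, and Kobayashi hyperbolicity.
-/

set_option autoImplicit false

namespace Run7.h34.OK

open MvPolynomial Metric Set Filter Topology Pool.Agent.Q72.OK
open scoped LinearAlgebra.Projectivization

variable {n : ℕ}

/-- an entire lift without common zeros -/
theorem lift0 {m : ℕ} {ℓ : (Fin (n + 1) → ℂ) ≃ₗ[ℂ] (Fin (n + 1) → ℂ)} {Ψ : ℂ → Mat n}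
    (hO : HolO (fun _ => m) (lin ℓ) univ Ψ) : ∃ G : ℂ → Fin (n + 1) → ℂ, Differentiable ℂ G ∧
      (∀ z, G z ≠ 0 ∧ Ψ z = Phi (G z)) ∧
      ∀ z i, ℓ (G z) i = 0 → (m : ℕ∞) ≤ analyticOrderAt (fun u => ℓ (G u) i) z := by
  obtain ⟨F, hFd, ⟨z1, hz1⟩, hFφ⟩ := exists_lift hO.holP
  obtain ⟨i1, hi1⟩ := Function.ne_iff.1 hz1
  obtain ⟨q, G', hq, hG', hfac, hcz⟩ := Pool.Agent.N459.JS.remove (fun j z => F z j)
    (fun j => differentiable_pi.1 hFd j) ⟨i1, z1, hi1⟩
  set G : ℂ → Fin (n + 1) → ℂ := fun z j => G' j z with hG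
  have hGd : Differentiable ℂ G := differentiable_pi.2 fun j => hG' j
  have hG0 : ∀ z, G z ≠ 0 := fun z h0 => by
    obtain ⟨i, hi⟩ := hcz z
    exact hi (congrFun h0 i)
  have hFG : ∀ z, F z = q z • G z := fun z => by
    funext j
    exact hfac j z
  have hqne : ∃ z, q z ≠ 0 := ⟨z1, fun h0 => hz1 (by rw [hFG, h0, zero_smul])⟩
  have hΨc : Continuous Ψ := continuous_iff_continuousAt.2 fun z => hO.holP.continuousAt (mem_univ z)
  have hGc : Continuous fun z => Phi (G z) := continuous_iff_continuousAt.2 fun z =>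
    (continuousAt_Phi (hG0 z)).comp hGd.continuous.continuousAt
  have hPhi : Ψ = fun z => Phi (G z) := by
    refine Continuous.ext_on (dense_ne hq hqne) hΨc hGc ?_
    intro z hz
    have hz' : q z ≠ 0 := hz
    change Ψ z = Phi (G z)
    rw [hFφ z (by rw [hFG]; exact smul_ne_zero hz' (hG0 z)), hFG, Phi_smul hz']
  refine ⟨G, hGd, fun z => ⟨hG0 z, congrFun hPhi z⟩, fun z i hi => ?_⟩
  exact HolO.lift (lin_hom ℓ) hO isOpen_univ (Subset.refl _) hGd.differentiableOn
    (fun w _ => ⟨hG0 w, congrFun hPhi w⟩) (mem_univ z) i hi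

/-- orbifold entire curves have entire lifts without common zeros and with high multiplicities -/
theorem lift {m : ℕ} {ℓ : (Fin (n + 1) → ℂ) ≃ₗ[ℂ] (Fin (n + 1) → ℂ)}
    {f : ℂ → ℙ ℂ (Fin (n + 1) → ℂ)} (hf : OrbifoldOn m ℓ univ f) :
    ∃ G : ℂ → Fin (n + 1) → ℂ, Differentiable ℂ G ∧
      (∀ z, ∃ h : G z ≠ 0, f z = Projectivization.mk ℂ (G z) h) ∧
      ∀ z i, ℓ (G z) i = 0 → (m : ℕ∞) ≤ analyticOrderAt (fun u => ℓ (G u) i) z := by
  obtain ⟨G, hGd, hG, ho⟩ := lift0 hf.holO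
  refine ⟨G, hGd, fun z => ⟨(hG z).1, ?_⟩, ho⟩
  apply PhiP_inj
  exact (hG z).2.trans (Phi_rep (hG z).1).symm

theorem homog_smul {P : MvPolynomial (Fin (n + 1)) ℂ} {e : ℕ} (hP : P.IsHomogeneous e) (c : ℂ)
    (u : Fin (n + 1) → ℂ) : eval (c • u) P = c ^ e * eval u P := by
  rw [eval_eq', eval_eq', Finset.mul_sum]
  refine Finset.sum_congr rfl fun α hα => ?_
  have h1 := hP (mem_support_iff.1 hα)
  rw [Finsupp.weight_apply, Finsupp.sum_fintype _ _ (by simp)] at h1
  have h2 : ∑ l, α l = e := by simpa using h1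
  simp only [Pi.smul_apply, smul_eq_mul, mul_pow]
  rw [Finset.prod_mul_distrib, Finset.prod_pow_eq_pow_sum, h2]
  ring

theorem mem_zeroSet {E : Set (MvPolynomial (Fin (n + 1)) ℂ)}
    (hE : ∀ P ∈ E, ∃ e, P.IsHomogeneous e) {u : Fin (n + 1) → ℂ} (hu : u ≠ 0) :
    Projectivization.mk ℂ u hu ∈ zeroSet E ↔ ∀ P ∈ E, eval u P = 0 := by
  obtain ⟨a, ha⟩ := Projectivization.exists_smul_eq_mk_rep ℂ u hu
  have h1 : ∀ P ∈ E, eval (Projectivization.mk ℂ u hu).rep P = 0 ↔ eval u P = 0 := by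
    intro P hP
    obtain ⟨e, he⟩ := hE P hP
    rw [← ha, Units.smul_def, homog_smul he]
    simp
  constructor
  · intro h P hP
    exact (h1 P hP).1 (h P hP)
  · intro h P hP
    exact (h1 P hP).2 (h P hP)

theorem isCompact_S (E : Set (MvPolynomial (Fin (n + 1)) ℂ))
    (hE : ∀ P ∈ E, ∃ e, P.IsHomogeneous e) :
    IsCompact {M : Mat n | ∃ u : Fin (n + 1) → ℂ, u ≠ 0 ∧ (∀ P ∈ E, eval u P = 0) ∧ M = Phi u} := by
  have h1 : IsCompact {u : Fin (n + 1) → ℂ | ‖u‖ = 1 ∧ ∀ P ∈ E, eval u P = 0} := by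
    refine IsCompact.of_isClosed_subset (isCompact_sphere (0 : Fin (n + 1) → ℂ) 1) ?_ ?_
    · have : {u : Fin (n + 1) → ℂ | ‖u‖ = 1 ∧ ∀ P ∈ E, eval u P = 0} =
          {u | ‖u‖ = 1} ∩ ⋂ P ∈ E, {u | eval u P = 0} := by
        ext u; simp
      rw [this]
      refine (isClosed_eq continuous_norm continuous_const).inter ?_
      refine isClosed_biInter fun P _ => isClosed_eq ?_ continuous_const
      exact MvPolynomial.continuous_eval P
    · intro u hu
      rw [mem_sphere_zero_iff_norm]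
      exact hu.1
  have h2 : {M : Mat n | ∃ u : Fin (n + 1) → ℂ, u ≠ 0 ∧ (∀ P ∈ E, eval u P = 0) ∧ M = Phi u} =
      Phi '' {u : Fin (n + 1) → ℂ | ‖u‖ = 1 ∧ ∀ P ∈ E, eval u P = 0} := by
    ext M
    constructor
    · rintro ⟨u, hu, hP, rfl⟩
      have hn : (‖u‖ : ℂ) ≠ 0 := by
        exact_mod_cast norm_ne_zero_iff.2 hu
      refine ⟨(‖u‖ : ℂ)⁻¹ • u, ⟨?_, ?_⟩, Phi_smul (inv_ne_zero hn) u⟩
      · rw [norm_smul, norm_inv, Complex.norm_real, norm_norm, inv_mul_cancel₀ (norm_ne_zero_iff.2 hu)]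
      · intro P hPE
        obtain ⟨e, he⟩ := hE P hPE
        rw [homog_smul he, hP P hPE, mul_zero]
    · rintro ⟨u, ⟨hu1, hu2⟩, rfl⟩
      refine ⟨u, ?_, hu2, rfl⟩
      intro h0
      rw [h0, norm_zero] at hu1
      exact zero_ne_one hu1
  rw [h2]
  refine h1.image_of_continuousOn fun u hu => ?_
  apply (continuousAt_Phi ?_).continuousWithinAt
  intro h0
  have := hu.1
  rw [h0, norm_zero] at this
  exact zero_ne_one this

/-- dilations of entire orbifold curves -/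
theorem OrbifoldOn.dil {m : ℕ} {ℓ : (Fin (n + 1) → ℂ) ≃ₗ[ℂ] (Fin (n + 1) → ℂ)}
    {f : ℂ → ℙ ℂ (Fin (n + 1) → ℂ)} (hf : OrbifoldOn m ℓ univ f) (r : ℝ) :
    OrbifoldOn m ℓ (ball 0 1) (fun u => f (r * u)) := by
  intro z _
  obtain ⟨G, hGd, hG, ho⟩ := lift hf
  refine ⟨univ, fun u => G (r * u), isOpen_univ, mem_univ _, ?_, fun w _ => hG _, ?_⟩
  · exact (hGd.comp (differentiable_id.const_mul (r : ℂ))).differentiableOn
  · intro w _ i hi
    have h1 := ho (r * w) i hi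
    have hq : Differentiable ℂ (fun u => ℓ (G u) i) := (lin_hom ℓ).diff i |>.comp hGd
    exact order_comp (g := fun u => ℓ (G u) i) (k := fun u : ℂ => (r : ℂ) * u) (hq.analyticAt _)
      ((differentiable_id.const_mul (r : ℂ)).analyticAt w) h1

/-- **Brody and Kobayashi hyperbolicity of orbifold pairs.** -/
theorem kob (m : ℕ) (ℓ : (Fin (n + 1) → ℂ) ≃ₗ[ℂ] (Fin (n + 1) → ℂ))
    (E : Set (MvPolynomial (Fin (n + 1)) ℂ)) (hE : ∀ P ∈ E, ∃ e, P.IsHomogeneous e) :
    (∀ f : ℂ → ℙ ℂ (Fin (n + 1) → ℂ), OrbifoldOn m ℓ univ f → (∀ z, f z ∈ zeroSet E) →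
      ∀ z w, f z = f w) ↔ Hyperbolic m ℓ (zeroSet E) := by
  constructor
  · intro hconst p hp q hq hpq
    set S : Set (Mat n) := {M : Mat n | ∃ u : Fin (n + 1) → ℂ, u ≠ 0 ∧ (∀ P ∈ E, eval u P = 0) ∧
      M = Phi u} with hS
    have hPM : S ⊆ PM := by
      rintro M ⟨u, hu, -, rfl⟩
      exact ⟨u, hu, rfl⟩
    have hc : ∀ Ψ, HolO (fun _ => m) (lin ℓ) univ Ψ → (∀ z, Ψ z ∈ S) → ∀ z, Ψ z = Ψ 0 := by
      intro Ψ hΨ hΨS z
      obtain ⟨G, hGd, hG, ho⟩ := lift0 hΨ
      have h1 := hconst (fun z => Projectivization.mk ℂ (G z) (hG z).1)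
        (fun z _ => ⟨univ, G, isOpen_univ, mem_univ _, hGd.differentiableOn,
          fun w _ => ⟨(hG w).1, rfl⟩, fun w _ i hi => ho w i hi⟩) (fun w => by
          rw [mem_zeroSet hE]
          intro P hP
          obtain ⟨u, hu, huP, huΨ⟩ := hΨS w
          rw [(hG w).2] at huΨ
          obtain ⟨c, hc, hcG⟩ := Phi_inj hu (hG w).1 huΨ.symm
          obtain ⟨e, he⟩ := hE P hP
          rw [hcG, homog_smul he, huP P hP, mul_zero]) z 0
      rw [(hG z).2, (hG 0).2, ← Phi_rep (hG z).1, ← Phi_rep (hG 0).1]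
      rw [h1]
    obtain ⟨C, hC, hb⟩ := brody Pool.Agent.Q185.OK.job_h (lin_hom ℓ) (isCompact_S E hE) hPM hc
    obtain ⟨L, hL, hlip⟩ := disc_lip (lin_hom ℓ) (isCompact_S E hE) hC hb
    have h2 := kobayashi_of_lip (k := m) (ℓ := ℓ) (X := zeroSet E) hL (fun f hf hfX s hs t ht => by
      have := hlip (fun z => PhiP (f z)) hf.holO
        (fun z hz => ⟨(f z).rep, (f z).rep_nonzero, hfX z hz, rfl⟩) s hs t ht
      rwa [cost_eq] at this) p q
    refine lt_of_lt_of_le ?_ h2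
    rw [ENNReal.ofReal_pos]
    apply div_pos _ hL
    rw [dist_pos]
    intro h3
    exact hpq (PhiP_inj h3).symm
  · intro hyp f hf hfX z w
    by_contra hne
    have h1 := hyp (f z) (hfX z) (f w) (hfX w) hne
    have hlim : Tendsto (fun r : ℝ => ENNReal.ofReal (poincareDist (z / r) (w / r))) atTop
        (𝓝 (ENNReal.ofReal 0)) := by
      apply ENNReal.tendsto_ofReal
      have h2 : ∀ a : ℂ, Tendsto (fun r : ℝ => a / (r : ℂ)) atTop (𝓝 0) := by
        intro a
        have h3 : Tendsto (fun r : ℝ => a * ((r⁻¹ : ℝ) : ℂ)) atTop (𝓝 (a * ((0 : ℝ) : ℂ))) :=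
          ((Complex.continuous_ofReal.tendsto 0).comp tendsto_inv_atTop_zero).const_mul a
        simp only [Complex.ofReal_zero, mul_zero] at h3
        refine h3.congr fun r => ?_
        rw [Complex.ofReal_inv, div_eq_mul_inv]
      have h4 : ContinuousAt (fun p : ℂ × ℂ => poincareDist p.1 p.2) (0, 0) := by
        unfold poincareDist
        have h5 : ContinuousAt (fun p : ℂ × ℂ => ‖p.1 - p.2‖ / ‖1 - (starRingEnd ℂ) p.1 * p.2‖)
            (0, 0) := by
          apply ContinuousAt.div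
          · fun_prop
          · fun_prop
          · simp
        apply ContinuousAt.log
        · apply ContinuousAt.div
          · exact continuousAt_const.add h5
          · exact continuousAt_const.sub h5
          · simp
        · simp
      have h6 : poincareDist 0 0 = 0 := by simp [poincareDist]
      have h7 := h4.tendsto.comp ((h2 z).prodMk_nhds (h2 w))
      simp only [h6] at h7
      exact h7
    rw [ENNReal.ofReal_zero] at hlim
    have h2 : ∀ᶠ r : ℝ in atTop, kobayashi m ℓ (zeroSet E) (f z) (f w) ≤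
        ENNReal.ofReal (poincareDist (z / r) (w / r)) := by
      filter_upwards [eventually_gt_atTop (‖z‖ + ‖w‖ + 1)] with r hr
      have hr0 : 0 < r := by
        have := norm_nonneg z
        have := norm_nonneg w
        linarith
      have hrc : (r : ℂ) ≠ 0 := by exact_mod_cast hr0.ne'
      have hmem : ∀ a : ℂ, ‖a‖ ≤ ‖z‖ + ‖w‖ → a / r ∈ ball (0 : ℂ) 1 := by
        intro a ha
        rw [mem_ball_zero_iff, norm_div, Complex.norm_real, Real.norm_of_nonneg hr0.le,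
          div_lt_one hr0]
        linarith
      unfold kobayashi
      refine iInf₂_le _ ⟨1, ![f z, f w], fun _ u => f (r * u), fun _ => z / r, fun _ => w / r,
        rfl, rfl, ?_, by simp⟩
      intro i
      refine ⟨OrbifoldOn.dil hf r, fun u _ => hfX _, hmem z (by linarith [norm_nonneg w]),
        hmem w (by linarith [norm_nonneg z]), ?_, ?_⟩
      · have : i = 0 := Subsingleton.elim _ _
        subst this
        simp only [mul_div_cancel₀ _ hrc]
        rfl
      · have : i = 0 := Subsingleton.elim _ _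
        subst this
        simp only [mul_div_cancel₀ _ hrc]
        rfl
    have h3 := ge_of_tendsto hlim h2
    exact absurd (lt_of_lt_of_le h1 h3) (lt_irrefl 0)

end Run7.h34.OK
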