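import Pool.Agent.Run7.h34.OK.Def2
import Pool.Agent.Run7.h34.OK.Core
import Pool.Agent.Run7.h34.OK.A1
import Pool.Agent.Run7.h34.OK.A2
import Pool.Agent.Run7.h34.OK.Kob

/-!
The equivalence of finiteness of integral points with respect to systems of hyperplanes and
degeneracy of orbifold entire curves.
-/

set_option autoImplicit false

namespace Run7.h34.OK

open MvPolynomial Set Pool.Agent.Q72.OK
open scoped NumberField LinearAlgebra.Projectivization

variable {K : Type} [Field K] {ι κ : Type} {n : ℕ}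

theorem map_homog (σ : K →+* ℂ) (F : ι → MvPolynomial (Fin (n + 1)) (𝓞 K))
    (hF : ∀ i, ∃ e, (F i).IsHomogeneous e) :
    ∀ P ∈ Set.range (fun i => (F i).map (σ.comp (algebraMap (𝓞 K) K))), ∃ e, P.IsHomogeneous e := by
  rintro _ ⟨i, rfl⟩
  obtain ⟨e, he⟩ := hF i
  exact ⟨e, he.map _⟩

theorem mem_cpts (σ : K →+* ℂ) (F : ι → MvPolynomial (Fin (n + 1)) (𝓞 K))
    (hF : ∀ i, ∃ e, (F i).IsHomogeneous e) {u : Fin (n + 1) → ℂ} (hu : u ≠ 0) :
    Projectivization.mk ℂ u hu ∈ cpts σ F ↔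
      ∀ i, eval₂ (σ.comp (algebraMap (𝓞 K) K)) u (F i) = 0 := by
  unfold cpts
  rw [mem_zeroSet (map_homog σ F hF)]
  simp [eval_map]

/-- from monomial curves to orbifold curves -/
theorem orb_of_mon {d : ℕ} (σ : K →+* ℂ)
    (F : ι → MvPolynomial (Fin (n + 1)) (𝓞 K)) (G : κ → MvPolynomial (Fin (n + 1)) (𝓞 K))
    (hF : ∀ i, ∃ e ≤ d, (F i).IsHomogeneous e) (hG : ∀ l, ∃ e, (G l).IsHomogeneous e)
    (ℓ : (Fin (n + 1) → ℂ) ≃ₗ[ℂ] (Fin (n + 1) → ℂ)) (hmon : MonCurvesInAt σ F G (BB n d) ℓ.symm)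
    {m : Fin (n + 1) → ℕ∞} (hm : ∀ j, (M0 n d : ℕ∞) ≤ m j) : OrbCurvesIn σ F G m ℓ := by
  intro f hf hfV hnc z0
  have hm0 := smt' n d
  replace hf : OrbifoldOn (M0 n d) ℓ univ f := fun z _ => by
    obtain ⟨W, x, h1, h2, h3, h4, h5⟩ := hf z
    exact ⟨W, x, h1, h2, h3, h4, fun w hw i hi => (hm i).trans (h5 w hw i hi)⟩
  have hF' : ∀ i, ∃ e, (F i).IsHomogeneous e := fun i => by
    obtain ⟨e, -, he⟩ := hF i
    exact ⟨e, he⟩
  obtain ⟨G0, hG0d, hG0, ho⟩ := lift hf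
  set φ : 𝓞 K →+* ℂ := σ.comp (algebraMap (𝓞 K) K) with hφ
  set y : Fin (n + 1) → ℂ → ℂ := fun j z => ℓ (G0 z) j with hy
  have hyd : ∀ j, Differentiable ℂ (y j) := fun j => (lin_hom ℓ).diff j |>.comp hG0d
  have hcz : ∀ z, ∃ j, y j z ≠ 0 := by
    intro z
    obtain ⟨h0, -⟩ := hG0 z
    exact Function.ne_iff.1 ((LinearEquiv.map_ne_zero_iff ℓ).2 h0)
  have hsymm : ∀ z, ℓ.symm (fun j => y j z) = G0 z := fun z => ℓ.symm_apply_apply _
  have hVz : ∀ z i, eval₂ φ (G0 z) (F i) = 0 := by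
    intro z i
    obtain ⟨h0, h1⟩ := hG0 z
    have h2 := hfV z
    rw [h1, mem_cpts σ F hF'] at h2
    exact h2 i
  rcases hm0 y hyd hcz (fun z j hj => ho z j hj) (Set.range fun i => lsub φ ℓ.symm (F i)) (by
      rintro _ ⟨i, rfl⟩
      obtain ⟨e, hed, he⟩ := hF i
      exact ⟨e, hed, lsub_homog φ ℓ.symm he⟩) (by
      rintro _ ⟨i, rfl⟩ z
      rw [eval_lsub, hsymm]
      exact hVz z i) with hprop | ⟨w, hwB, ⟨i, j, hi, hj, hwij⟩, hw⟩
  · exfalso
    obtain ⟨z1, z2, hz12⟩ := hnc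
    apply hz12
    obtain ⟨j, hj⟩ := hcz 0
    choose c hc using fun i => hprop i j ⟨0, hj⟩
    have hyc : ∀ z, (fun l => y l z) = y j z • c := by
      intro z
      funext l
      rw [Pi.smul_apply, smul_eq_mul, mul_comm]
      exact hc l z
    have hyj : ∀ z, y j z ≠ 0 := by
      intro z h0
      obtain ⟨l, hl⟩ := hcz z
      apply hl
      rw [hc l z, h0, mul_zero]
    obtain ⟨h1, e1⟩ := hG0 z1
    obtain ⟨h2, e2⟩ := hG0 z2
    rw [e1, e2, Projectivization.mk_eq_mk_iff']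
    refine ⟨y j z1 / y j z2, ?_⟩
    rw [← hsymm z1, ← hsymm z2, ← map_smul, hyc z1, hyc z2, smul_smul,
      div_mul_cancel₀ _ (hyj z2)]
  · obtain ⟨h0, e0⟩ := hG0 z0
    rw [e0, mem_cpts σ G hG]
    intro l
    -- the function
    have hcont : Continuous fun z => eval₂ φ (G0 z) (G l) := by
      have h1 : Continuous fun z => eval (G0 z) ((G l).map φ) :=
        (MvPolynomial.continuous_eval _).comp hG0d.continuous
      simpa [eval_map] using h1
    have hdense : Dense ({z | y i z ≠ 0} ∩ {z | y j z ≠ 0}) :=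
      (dense_ne (hyd i) hi).inter_of_isOpen_right (dense_ne (hyd j) hj)
        (isOpen_ne_fun (hyd j).continuous continuous_const)
    have h3 : (fun z => eval₂ φ (G0 z) (G l)) = fun _ => 0 := by
      refine Continuous.ext_on hdense hcont continuous_const ?_
      rintro z ⟨hz1, hz2⟩
      have hcurve : MonCurve σ F (BB n d) ℓ.symm (fun l => y l z) w := by
        refine ⟨hwB, ⟨i, j, hz1, hz2, hwij⟩, ?_⟩
        intro t _ a
        rw [← hφ, ← eval_lsub]
        exact hw _ ⟨a, rfl⟩ z t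
      have h4 := hmon _ _ hcurve 1 one_ne_zero l
      simp only [one_pow, mul_one] at h4
      rw [hsymm z] at h4
      exact h4
    exact congrFun h3 z0

/-- from orbifold curves to monomial curves -/
theorem mon_of_orb (σ : K →+* ℂ) (F : ι → MvPolynomial (Fin (n + 1)) (𝓞 K))
    (G : κ → MvPolynomial (Fin (n + 1)) (𝓞 K)) (hF : ∀ i, ∃ e, (F i).IsHomogeneous e)
    (hG : ∀ l, ∃ e, (G l).IsHomogeneous e) (m : Fin (n + 1) → ℕ∞)
    (ℓ : (Fin (n + 1) → ℂ) ≃ₗ[ℂ] (Fin (n + 1) → ℂ)) (h : OrbCurvesIn σ F G m ℓ) (B : ℕ) :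
    MonCurvesInAt σ F G B ℓ.symm := by
  intro x k hcurve t ht l
  obtain ⟨i, j, hi, hj, hk⟩ := hcurve.nc
  set v : ℂ → Fin (n + 1) → ℂ := fun z j => x j * Complex.exp z ^ k j with hv
  have hvd : Differentiable ℂ v := by
    rw [differentiable_pi]
    intro j
    exact (Complex.differentiable_exp.pow _).const_mul _
  have hv0 : ∀ z, v z ≠ 0 := by
    intro z h0
    have := congrFun h0 i
    exact mul_ne_zero hi (pow_ne_zero _ (Complex.exp_ne_zero z)) this
  set G1 : ℂ → Fin (n + 1) → ℂ := fun z => ℓ.symm (v z) with hG1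
  have hG1d : Differentiable ℂ G1 :=
    (LinearMap.toContinuousLinearMap (ℓ.symm : (Fin (n + 1) → ℂ) →ₗ[ℂ] (Fin (n + 1) → ℂ))).differentiable.comp
      hvd
  have hG10 : ∀ z, G1 z ≠ 0 := fun z => (LinearEquiv.map_ne_zero_iff ℓ.symm).2 (hv0 z)
  have hℓG : ∀ z, ℓ (G1 z) = v z := fun z => ℓ.apply_symm_apply _
  have h1 := h (fun z => Projectivization.mk ℂ (G1 z) (hG10 z)) (by
      intro z
      refine ⟨univ, G1, isOpen_univ, mem_univ _, hG1d.differentiableOn, fun w _ => ⟨hG10 w, rfl⟩, ?_⟩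
      intro w _ a ha
      have hxa : x a = 0 := by
        rw [hℓG] at ha
        exact (mul_eq_zero.1 ha).resolve_right (pow_ne_zero _ (Complex.exp_ne_zero w))
      have : (fun u => ℓ (G1 u) a) = fun _ => 0 := by
        funext u
        rw [hℓG]
        simp [hv, hxa]
      rw [this]
      have h2 : analyticOrderAt (fun _ : ℂ => (0 : ℂ)) w = ⊤ := by
        rw [analyticOrderAt_eq_top]
        simp
      rw [h2]
      exact le_top) (by
      intro z
      rw [mem_cpts σ F hF]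
      intro a
      exact hcurve.mem (Complex.exp z) (Complex.exp_ne_zero z) a) (by
      refine ⟨Complex.log 2, 0, ?_⟩
      intro h0
      rw [Projectivization.mk_eq_mk_iff'] at h0
      obtain ⟨c, hc⟩ := h0
      have h2 : v (Complex.log 2) = c • v 0 := by
        rw [← hℓG, ← hℓG, ← hc, map_smul]
      have h3 := two_pow_inj (L := ℂ) (x := x) (k := k) (N := 1) (M := 0) (c := c) hi hj hk (by
        intro a
        have := congrFun h2 a
        simp only [hv, Pi.smul_apply, smul_eq_mul, Complex.exp_log two_ne_zero, Complex.exp_zero]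
          at this
        rw [pow_one, pow_zero]
        exact this)
      exact one_ne_zero h3) (Complex.log t)
  rw [mem_cpts σ G hG] at h1
  have h2 := h1 l
  simp only [hG1, hv] at h2
  rw [Complex.exp_log ht] at h2
  exact h2

/-- base change of a linear automorphism -/
theorem base_change {L : Type} [Field L] (τ : L →+* ℂ)
    (ℓ : (Fin (n + 1) → L) ≃ₗ[L] (Fin (n + 1) → L)) :
    ∃ S : (Fin (n + 1) → ℂ) ≃ₗ[ℂ] (Fin (n + 1) → ℂ),
      ∀ v : Fin (n + 1) → L, (S fun j => τ (v j)) = fun j => τ (ℓ v j) := by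
  set M : Matrix (Fin (n + 1)) (Fin (n + 1)) L := LinearMap.toMatrix' (ℓ : _ →ₗ[L] _) with hM
  set N : Matrix (Fin (n + 1)) (Fin (n + 1)) L := LinearMap.toMatrix' (ℓ.symm : _ →ₗ[L] _) with hN
  have hMN : M * N = 1 := by
    rw [hM, hN, ← LinearMap.toMatrix'_comp, LinearEquiv.comp_symm, LinearMap.toMatrix'_id]
  have hNM : N * M = 1 := by
    rw [hM, hN, ← LinearMap.toMatrix'_comp, LinearEquiv.symm_comp, LinearMap.toMatrix'_id]
  refine ⟨LinearEquiv.ofLinearMap (Matrix.toLin' (M.map τ)) (Matrix.toLin' (N.map τ)) ?_ ?_, ?_⟩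
  · rw [← Matrix.toLin'_mul, ← Matrix.map_mul, hMN, Matrix.map_one _ (map_zero τ) (map_one τ),
      Matrix.toLin'_one]
  · rw [← Matrix.toLin'_mul, ← Matrix.map_mul, hNM, Matrix.map_one _ (map_zero τ) (map_one τ),
      Matrix.toLin'_one]
  · intro v
    funext a
    have h1 : ℓ v = M.mulVec v := by
      rw [hM, LinearMap.toMatrix'_mulVec]
      rfl
    change (M.map τ).mulVec (fun j => τ (v j)) a = τ (ℓ v a)
    rw [h1]
    simp [Matrix.mulVec, dotProduct, map_sum]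

/-- an embedding of an extension -/
theorem exists_embedding (K : Type) [Field K] [NumberField K] (σ : K →+* ℂ) (L : Type) [Field L]
    [NumberField L] [Algebra K L] : ∃ τ : L →+* ℂ, τ.comp (algebraMap K L) = σ := by
  let _ : Algebra K ℂ := σ.toAlgebra
  have : Algebra.IsAlgebraic K L := Algebra.IsAlgebraic.tower_top (K := ℚ) K
  let τ : L →ₐ[K] ℂ := IsAlgClosed.lift
  exact ⟨τ.toRingHom, τ.comp_algebraMap⟩

theorem integral_of_mon [NumberField K] {d : ℕ} [Finite ι] (σ : K →+* ℂ)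
    (F : ι → MvPolynomial (Fin (n + 1)) (𝓞 K)) (G : κ → MvPolynomial (Fin (n + 1)) (𝓞 K))
    (hF : ∀ i, ∃ e ≤ d, (F i).IsHomogeneous e) (h : MonCurvesIn σ F G (BB n d)) :
    IntegralFinite F G := by
  intro L _ _ _ ℓ Γ hΓ
  obtain ⟨τ, hτ⟩ := exists_embedding K σ L
  obtain ⟨S, hS⟩ := base_change τ ℓ.symm
  exact a1 σ F G hF L τ hτ ℓ Γ hΓ S hS (fun x k hc => h S x k hc)

theorem coord_of_mon [NumberField K] {d : ℕ} [Finite ι] (σ : K →+* ℂ)
    (F : ι → MvPolynomial (Fin (n + 1)) (𝓞 K)) (G : κ → MvPolynomial (Fin (n + 1)) (𝓞 K))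
    (hF : ∀ i, ∃ e ≤ d, (F i).IsHomogeneous e)
    (h : MonCurvesInAt σ F G (BB n d) (LinearEquiv.refl ℂ _)) :
    CoordFinite F G := by
  intro L _ _ _ Γ hΓ
  obtain ⟨τ, hτ⟩ := exists_embedding K σ L
  exact a1 σ F G hF L τ hτ (LinearEquiv.refl L _) Γ hΓ (LinearEquiv.refl ℂ _) (fun v => rfl) h

theorem mon_of_integral [NumberField K] (σ : K →+* ℂ)
    (F : ι → MvPolynomial (Fin (n + 1)) (𝓞 K)) (G : κ → MvPolynomial (Fin (n + 1)) (𝓞 K))
    (h : IntegralFinite F G) (B : ℕ) : MonCurvesIn σ F G B := by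
  intro S x k hc t ht l
  by_contra hne
  obtain ⟨L, fL, nL, aL, ℓ, Γ, hΓ, -, hfin⟩ := a2 K ι κ n σ F G B S x k hc t l ht hne
  exact hfin (@h L fL nL aL ℓ Γ hΓ)

theorem mon_of_coord [NumberField K] (σ : K →+* ℂ)
    (F : ι → MvPolynomial (Fin (n + 1)) (𝓞 K)) (G : κ → MvPolynomial (Fin (n + 1)) (𝓞 K))
    (h : CoordFinite F G) (B : ℕ) : MonCurvesInAt σ F G B (LinearEquiv.refl ℂ _) := by
  intro x k hc t ht l
  by_contra hne
  obtain ⟨L, fL, nL, aL, ℓ, Γ, hΓ, hℓ, hfin⟩ := a2 K ι κ n σ F G B _ x k hc t l ht hne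
  rw [hℓ rfl] at hfin
  exact hfin (@h L fL nL aL Γ hΓ)

/-- the equivalence for all systems of hyperplanes -/
theorem tfae_all [NumberField K] {d : ℕ} [Finite ι] (σ : K →+* ℂ)
    (F : ι → MvPolynomial (Fin (n + 1)) (𝓞 K)) (G : κ → MvPolynomial (Fin (n + 1)) (𝓞 K))
    (hF : ∀ i, ∃ e ≤ d, (F i).IsHomogeneous e) (hG : ∀ l, ∃ e, (G l).IsHomogeneous e) :
    List.TFAE [IntegralFinite F G, MonCurvesIn σ F G (BB n d), ∀ B', MonCurvesIn σ F G B',
      ∀ m : Fin (n + 1) → ℕ∞, (∀ j, (M0 n d : ℕ∞) ≤ m j) → ∀ ℓ, OrbCurvesIn σ F G m ℓ,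
      ∃ m, ∀ ℓ, OrbCurvesIn σ F G m ℓ] := by
  have hF' : ∀ i, ∃ e, (F i).IsHomogeneous e := fun i => by
    obtain ⟨e, -, he⟩ := hF i
    exact ⟨e, he⟩
  tfae_have 1 → 3 := fun h B => mon_of_integral σ F G h B
  tfae_have 3 → 2 := fun h => h _
  tfae_have 2 → 1 := fun h => integral_of_mon σ F G hF h
  tfae_have 2 → 4 := fun h m hm ℓ => orb_of_mon σ F G hF hG ℓ (fun x k hc => h ℓ.symm x k hc) hm
  tfae_have 4 → 5 := fun h => ⟨fun _ => M0 n d, h _ fun _ => le_rfl⟩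
  tfae_have 5 → 3 := by
    rintro ⟨m, hm⟩ B S x k hc
    have := mon_of_orb σ F G hF' hG m S.symm (hm S.symm) B x k
    rw [LinearEquiv.symm_symm] at this
    exact this hc
  tfae_finish

/-- the equivalence for the coordinate hyperplanes -/
theorem tfae_coord [NumberField K] {d : ℕ} [Finite ι] (σ : K →+* ℂ)
    (F : ι → MvPolynomial (Fin (n + 1)) (𝓞 K)) (G : κ → MvPolynomial (Fin (n + 1)) (𝓞 K))
    (hF : ∀ i, ∃ e ≤ d, (F i).IsHomogeneous e) (hG : ∀ l, ∃ e, (G l).IsHomogeneous e) :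
    List.TFAE [CoordFinite F G, MonCurvesInAt σ F G (BB n d) (LinearEquiv.refl ℂ _),
      ∀ B', MonCurvesInAt σ F G B' (LinearEquiv.refl ℂ _),
      ∀ m : Fin (n + 1) → ℕ∞, (∀ j, (M0 n d : ℕ∞) ≤ m j) →
        OrbCurvesIn σ F G m (LinearEquiv.refl ℂ _),
      ∃ m, OrbCurvesIn σ F G m (LinearEquiv.refl ℂ _)] := by
  have hF' : ∀ i, ∃ e, (F i).IsHomogeneous e := fun i => by
    obtain ⟨e, -, he⟩ := hF i
    exact ⟨e, he⟩
  tfae_have 1 → 3 := fun h B => mon_of_coord σ F G h B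
  tfae_have 3 → 2 := fun h => h _
  tfae_have 2 → 1 := fun h => coord_of_mon σ F G hF h
  tfae_have 2 → 4 := fun h m hm => orb_of_mon σ F G hF hG (LinearEquiv.refl ℂ _) h hm
  tfae_have 4 → 5 := fun h => ⟨fun _ => M0 n d, h _ fun _ => le_rfl⟩
  tfae_have 5 → 3 := by
    rintro ⟨m, hm⟩ B
    exact mon_of_orb σ F G hF' hG m (LinearEquiv.refl ℂ _) hm B
  tfae_finish

end Run7.h34.OK
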