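import Pool.Agent.Run7.h34.OK.Main

/-!
Varieties given by forms in high powers of the coordinates.
-/

set_option autoImplicit false

namespace Run7.h34.OK

open MvPolynomial Set Pool.Agent.Q72.OK
open scoped NumberField LinearAlgebra.Projectivization

variable {K : Type} [Field K] {ι κ : Type} {n : ℕ}

theorem powForms_homog {d : ℕ} (m : ℕ) (F : ι → MvPolynomial (Fin (n + 1)) (𝓞 K))
    (hF : ∀ i, ∃ e ≤ d, (F i).IsHomogeneous e) :
    ∀ i, ∃ e ≤ m * d, (powForms m F i).IsHomogeneous e := by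
  intro i
  obtain ⟨e, hed, he⟩ := hF i
  refine ⟨m * e, Nat.mul_le_mul_left m hed, ?_⟩
  have h1 := he.eval₂ (C : 𝓞 K →+* MvPolynomial (Fin (n + 1)) (𝓞 K)) (fun i => X i ^ m) (n := m)
    (fun r => isHomogeneous_C _ _) (fun i => by
      have := (isHomogeneous_X (𝓞 K) i).pow m
      rwa [one_mul] at this)
  have h2 : powForms m F i = eval₂ C (fun i => X i ^ m) (F i) := rfl
  rw [h2]
  exact h1

/-- from monomial curves to entire curves, for forms in high powers -/
theorem entire_of_mon {d : ℕ} (σ : K →+* ℂ)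
    (F : ι → MvPolynomial (Fin (n + 1)) (𝓞 K)) (G : κ → MvPolynomial (Fin (n + 1)) (𝓞 K))
    (hF : ∀ i, ∃ e ≤ d, (F i).IsHomogeneous e) (hG : ∀ l, ∃ e, (G l).IsHomogeneous e)
    {m : ℕ} (hm : M0 n d ≤ m)
    (hmon : MonCurvesInAt σ (powForms m F) G (BB n d) (LinearEquiv.refl ℂ _)) :
    EntireCurvesIn σ (powForms m F) G := by
  intro f hf hfV hnc z0
  have hm1 : 1 ≤ m := (one_le_M0 n d).trans hm
  have hF' : ∀ i, ∃ e, (powForms m F i).IsHomogeneous e := fun i => by
    obtain ⟨e, -, he⟩ := powForms_homog m F hF i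
    exact ⟨e, he⟩
  replace hf : OrbifoldOn 0 (LinearEquiv.refl ℂ _) univ f := fun z _ => hf z
  obtain ⟨G0, hG0d, hG0, -⟩ := lift hf
  set φ : 𝓞 K →+* ℂ := σ.comp (algebraMap (𝓞 K) K) with hφ
  have hyd : ∀ j, Differentiable ℂ (fun z => G0 z j) := fun j => differentiable_pi.1 hG0d j
  set Y : Fin (n + 1) → ℂ → ℂ := fun j z => G0 z j ^ m with hY
  have hYd : ∀ j, Differentiable ℂ (Y j) := fun j => (hyd j).pow m
  have hcz : ∀ z, ∃ j, G0 z j ≠ 0 := by
    intro z
    obtain ⟨h0, -⟩ := hG0 z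
    exact Function.ne_iff.1 h0
  have hVz : ∀ z i, eval₂ φ (G0 z) (powForms m F i) = 0 := by
    intro z i
    obtain ⟨h0, h1⟩ := hG0 z
    have h2 := hfV z
    rw [h1, mem_cpts σ _ hF'] at h2
    exact h2 i
  have hexp : ∀ (v : Fin (n + 1) → ℂ) i, eval₂ φ v (powForms m F i) =
      eval (fun l => v l ^ m) ((F i).map φ) := by
    intro v i
    unfold powForms
    rw [eval₂_expand, eval_map]
    rfl
  rcases smt' n d Y hYd (fun z => by
      obtain ⟨j, hj⟩ := hcz z
      exact ⟨j, pow_ne_zero _ hj⟩) (by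
      intro z j hj
      have h1 : G0 z j = 0 := pow_eq_zero_iff (by omega) |>.1 hj
      have h2 : analyticOrderAt (Y j) z = m • analyticOrderAt (fun z => G0 z j) z :=
        analyticOrderAt_pow ((hyd j).analyticAt z) m
      rw [h2]
      have h3 : 1 ≤ analyticOrderAt (fun z => G0 z j) z := by
        rw [Order.one_le_iff_ne_zero, ((hyd j).analyticAt z).analyticOrderAt_ne_zero]
        exact h1
      calc (M0 n d : ℕ∞) ≤ m := by exact_mod_cast hm
        _ = m • (1 : ℕ∞) := by simp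
        _ ≤ m • analyticOrderAt (fun z => G0 z j) z := by gcongr)
      (Set.range fun i => (F i).map φ) (by
      rintro _ ⟨i, rfl⟩
      obtain ⟨e, hed, he⟩ := hF i
      exact ⟨e, hed, he.map _⟩) (by
      rintro _ ⟨i, rfl⟩ z
      have := hVz z i
      rw [hexp] at this
      exact this) with hprop | ⟨w, hwB, ⟨i, j, ⟨zi, hi⟩, ⟨zj, hj⟩, hwij⟩, hw⟩
  · exfalso
    obtain ⟨z1, z2, hz12⟩ := hnc
    apply hz12
    obtain ⟨j, hj⟩ := hcz 0
    have hprop' : ∀ i, ∃ c, ∀ z, G0 z i = c * G0 z j := by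
      intro i
      obtain ⟨c, hc⟩ := hprop i j ⟨0, pow_ne_zero _ hj⟩
      exact prop_of_pow (hyd i) (hyd j) ⟨0, hj⟩ hm1 hc
    choose c hc using hprop'
    have hyc : ∀ z, G0 z = G0 z j • c := by
      intro z
      funext l
      rw [Pi.smul_apply, smul_eq_mul, mul_comm]
      exact hc l z
    have hyj : ∀ z, G0 z j ≠ 0 := by
      intro z h0
      obtain ⟨l, hl⟩ := hcz z
      apply hl
      rw [hc l z, h0, mul_zero]
    obtain ⟨h1, e1⟩ := hG0 z1
    obtain ⟨h2, e2⟩ := hG0 z2
    rw [e1, e2, Projectivization.mk_eq_mk_iff']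
    refine ⟨G0 z1 j / G0 z2 j, ?_⟩
    have e3 := hyc z1
    have e4 := hyc z2
    rw [e4, e3]
    simp only [Pi.smul_apply, smul_eq_mul, smul_smul]
    have h5 : c j = 1 := by
      have := hc j z1
      have h6 : G0 z1 j * (c j - 1) = 0 := by linear_combination -this
      exact sub_eq_zero.1 ((mul_eq_zero.1 h6).resolve_left (hyj z1))
    rw [h5]
    simp only [mul_one]
    rw [div_mul_cancel₀ _ (hyj z2)]
  · obtain ⟨h0, e0⟩ := hG0 z0
    rw [e0, mem_cpts σ G hG]
    intro l
    have hcont : Continuous fun z => eval₂ φ (G0 z) (G l) := by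
      have h1 : Continuous fun z => eval (G0 z) ((G l).map φ) :=
        (MvPolynomial.continuous_eval _).comp hG0d.continuous
      simpa [eval_map] using h1
    have hi' : G0 zi i ≠ 0 := fun h => hi (by simp only [hY]; rw [h, zero_pow (by omega)])
    have hj' : G0 zj j ≠ 0 := fun h => hj (by simp only [hY]; rw [h, zero_pow (by omega)])
    have hdense : Dense ({z | G0 z i ≠ 0} ∩ {z | G0 z j ≠ 0}) :=
      (dense_ne (hyd i) ⟨zi, hi'⟩).inter_of_isOpen_right (dense_ne (hyd j) ⟨zj, hj'⟩)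
        (isOpen_ne_fun (hyd j).continuous continuous_const)
    have h3 : (fun z => eval₂ φ (G0 z) (G l)) = fun _ => 0 := by
      refine Continuous.ext_on hdense hcont continuous_const ?_
      rintro z ⟨hz1, hz2⟩
      have hcurve : MonCurve σ (powForms m F) (BB n d) (LinearEquiv.refl ℂ _)
          (fun l => G0 z l) w := by
        refine ⟨hwB, ⟨i, j, hz1, hz2, hwij⟩, ?_⟩
        intro t _ a
        rw [← hφ, LinearEquiv.refl_apply, hexp]
        have := hw _ ⟨a, rfl⟩ z (t ^ m)
        have e : (fun l => (G0 z l * t ^ w l) ^ m) = fun l => Y l z * (t ^ m) ^ w l := by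
          funext l
          rw [mul_pow, ← pow_mul, ← pow_mul, mul_comm (w l)]
        rw [e]
        exact this
      have h4 := hmon _ _ hcurve 1 one_ne_zero l
      simpa using h4
    exact congrFun h3 z0

/-- the equivalence for forms in high powers -/
theorem tfae_pow [NumberField K] {d : ℕ} [Finite ι] (σ : K →+* ℂ)
    (F : ι → MvPolynomial (Fin (n + 1)) (𝓞 K)) (G : κ → MvPolynomial (Fin (n + 1)) (𝓞 K))
    (hF : ∀ i, ∃ e ≤ d, (F i).IsHomogeneous e) (hG : ∀ l, ∃ e, (G l).IsHomogeneous e)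
    {m : ℕ} (hm : M0 n d ≤ m) :
    List.TFAE [EntireCurvesIn σ (powForms m F) G, CoordFinite (powForms m F) G,
      MonCurvesInAt σ (powForms m F) G (BB n d) (LinearEquiv.refl ℂ _),
      ∀ B', MonCurvesInAt σ (powForms m F) G B' (LinearEquiv.refl ℂ _)] ∧
    (RationalFinite (powForms m F) G → EntireCurvesIn σ (powForms m F) G) := by
  have hF' := powForms_homog m F hF
  have hF'' : ∀ i, ∃ e, (powForms m F i).IsHomogeneous e := fun i => by
    obtain ⟨e, -, he⟩ := hF' i
    exact ⟨e, he⟩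
  have h1 := tfae_coord σ (powForms m F) G hF' hG
  have key : List.TFAE [EntireCurvesIn σ (powForms m F) G, CoordFinite (powForms m F) G,
      MonCurvesInAt σ (powForms m F) G (BB n d) (LinearEquiv.refl ℂ _),
      ∀ B', MonCurvesInAt σ (powForms m F) G B' (LinearEquiv.refl ℂ _)] := by
    tfae_have 1 → 4 := fun h B => mon_of_orb σ (powForms m F) G hF'' hG 0 (LinearEquiv.refl ℂ _) h B
    tfae_have 4 → 3 := fun h => h _
    tfae_have 3 → 1 := fun h => entire_of_mon σ F G hF hG hm h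
    tfae_have 2 ↔ 4 := h1.out 0 2
    tfae_finish
  refine ⟨key, fun h => ?_⟩
  have h2 : CoordFinite (powForms m F) G := by
    intro L _ _ _ Γ _
    refine (h L).subset ?_
    rintro P ⟨x, hx, hP, h3, h4, -⟩
    exact ⟨x, hx, hP, h3, h4⟩
  exact (key.out 1 0).1 h2

end Run7.h34.OK
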