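import Pool.Agent.W602.NC.Separate
import Pool.Agent.N459.JS.Weier
import Pool.Agent.Run7.h34.OK.Alt

/-!
Separation of families of entire functions indexed by finite types, and products of families.
-/

set_option autoImplicit false

namespace Run7.h34.OK

open Finset
open Pool.Agent.W602.NC (Rel separate)
open Pool.Agent.H159R3.NV (ent_eq_zero_or)

/-- A connected highly ramified family of entire functions without common zeros consists of
proportional functions. -/
theorem sep {G : Type} [Fintype G] (g : G → ℂ → ℂ) (hg : ∀ a, Differentiable ℂ (g a))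
    (hne : ∀ a, ∃ z, g a z ≠ 0) (hcz : ∀ z, ∃ a, g a z ≠ 0) {M : ℕ}
    (hord : ∀ z, (∃ a, g a z = 0) → ∃ a, (M : ℕ∞) ≤ analyticOrderAt (g a) z)
    (hM : (Fintype.card G) ^ 4 ≤ M)
    (hconn : ∀ κ : Set G, κ.Nonempty → κ ≠ Set.univ → ∃ (ι : Type) (A : Finset ι) (φ : ι → G),
      Function.Injective φ ∧ (∀ z, ∑ i ∈ A, g (φ i) z = 0) ∧
        ∀ A' ⊆ A, (∀ i ∈ A, i ∈ A' ↔ φ i ∈ κ) → ∃ z, ∑ i ∈ A', g (φ i) z ≠ 0)
    (a b : G) : ∃ c : ℂ, ∀ z, g a z = c * g b z := by
  classical
  by_contra hcon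
  push Not at hcon
  obtain ⟨p, hp⟩ : ∃ p, Fintype.card G = p + 1 :=
    ⟨Fintype.card G - 1, by have := Fintype.card_pos_iff.2 ⟨a⟩; omega⟩
  set e0 : G ≃ Fin (p + 1) := Fintype.equivFinOfCardEq hp with he0
  set e : Fin (p + 1) ≃ G := (Equiv.swap 0 (e0 b)).trans e0.symm with he
  have heb : e 0 = b := by simp [he]
  have hsum : ∀ (c : G → ℂ) (z : ℂ) (s : Finset G),
      ∑ i ∈ s.map e.symm.toEmbedding, c (e i) * g (e i) z = ∑ x ∈ s, c x * g x z := by
    intro c z s
    rw [Finset.sum_map]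
    simp
  obtain ⟨κ, hκ1, hκ2, hκ⟩ := separate (n := p) (M := M) (fun i => g (e i)) (fun i => hg _)
    (fun i => hne _) (fun z => by
      obtain ⟨x, hx⟩ := hcz z
      exact ⟨e.symm x, by simpa using hx⟩) (by
      rintro z ⟨i, hi⟩
      obtain ⟨x, hx⟩ := hord z ⟨e i, hi⟩
      refine hx.trans ?_
      have h1 := Finset.single_le_sum (f := fun i => analyticOrderAt (g (e i)) z)
        (fun i _ => zero_le) (Finset.mem_univ (e.symm x))
      simpa using h1) (by
      have h1 : Set.finrank ℂ (Set.range fun i => g (e i)) ≤ Fintype.card (Fin (p + 1)) :=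
        finrank_range_le_card _
      rw [Fintype.card_fin] at h1
      exact h1) (by
      rw [hp] at hM
      refine lt_of_lt_of_le ?_ hM
      have h1 : p ^ 2 < (p + 1) ^ 2 := Nat.pow_lt_pow_left (Nat.lt_succ_self p) (by norm_num)
      calc p ^ 2 * (p + 1) * (p + 1) = p ^ 2 * (p + 1) ^ 2 := by ring
        _ < (p + 1) ^ 2 * (p + 1) ^ 2 := Nat.mul_lt_mul_of_pos_right h1 (by positivity)
        _ = _ := by ring) (e.symm a) (by
      intro c
      obtain ⟨z, hz⟩ := hcon c
      refine ⟨z, ?_⟩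
      rw [heb]
      simp only [Equiv.apply_symm_apply]
      exact sub_ne_zero.2 hz)
  obtain ⟨ι, A, φ, hφ, hA, hA'⟩ := hconn {x | e.symm x ∈ κ} (by
      obtain ⟨i, hi⟩ := hκ1
      exact ⟨e i, by simpa using hi⟩) (by
      intro h
      apply hκ2
      rw [Finset.eq_univ_iff_forall]
      intro i
      have : e i ∈ {x | e.symm x ∈ κ} := by rw [h]; exact Set.mem_univ _
      simpa using this)
  obtain ⟨z, hz⟩ := hA' (A.filter fun i => e.symm (φ i) ∈ κ) (Finset.filter_subset _ _) (by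
    intro i hi
    simp [hi])
  apply hz
  set c : G → ℂ := fun x => if x ∈ A.map ⟨φ, hφ⟩ then 1 else 0 with hc
  have h1 := hκ (fun i => c (e i)) (by
    intro w
    have h2 := hsum c w Finset.univ
    have h3 : (Finset.univ : Finset G).map e.symm.toEmbedding = Finset.univ := by simp
    rw [h3] at h2
    rw [h2, ← hA w]
    simp only [hc, ite_mul, one_mul, zero_mul]
    rw [Finset.sum_ite_mem, Finset.univ_inter, Finset.sum_map]
    rfl) z
  rw [← h1]
  simp only [hc, ite_mul, one_mul, zero_mul]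
  rw [← Finset.sum_filter]
  refine Finset.sum_bij (fun i _ => e.symm (φ i)) ?_ ?_ ?_ ?_
  · intro i hi
    rw [Finset.mem_filter] at hi ⊢
    refine ⟨hi.2, ?_⟩
    rw [Equiv.apply_symm_apply]
    exact Finset.mem_map_of_mem _ hi.1
  · intro i _ j _ h
    exact hφ (e.symm.injective h)
  · intro i hi
    rw [Finset.mem_filter, Finset.mem_map] at hi
    obtain ⟨hi1, j, hj, hji⟩ := hi
    have hji' : φ j = e i := hji
    refine ⟨j, ?_, ?_⟩
    · rw [Finset.mem_filter]
      refine ⟨hj, ?_⟩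
      rw [hji']
      simpa using hi1
    · rw [hji']; simp
  · intro i _
    rw [Equiv.apply_symm_apply]

/-- removal of the common zeros -/
theorem remove' {ι : Type} (B : Finset ι) (f : ι → ℂ → ℂ) (hf : ∀ i ∈ B, Differentiable ℂ (f i))
    (hne : ∃ i ∈ B, ∃ t, f i t ≠ 0) : ∃ (q : ℂ → ℂ) (v : ι → ℂ → ℂ), Differentiable ℂ q ∧
      (∀ i ∈ B, Differentiable ℂ (v i)) ∧ (∀ i ∈ B, ∀ t, f i t = q t * v i t) ∧
      ∀ t, ∃ i ∈ B, v i t ≠ 0 := by
  classical
  obtain ⟨M, hM⟩ : ∃ M, B.card = M + 1 := by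
    obtain ⟨i, hi, -⟩ := hne
    exact ⟨B.card - 1, by have := Finset.card_pos.2 ⟨i, hi⟩; omega⟩
  set e : Fin (M + 1) ≃ B := (Finset.equivFinOfCardEq hM).symm with he
  obtain ⟨q, g', hq, hg', hgq, hcz⟩ := Pool.Agent.N459.JS.remove (fun i => f (e i))
    (fun i => hf _ (e i).2) (by
      obtain ⟨i, hi, t, ht⟩ := hne
      exact ⟨e.symm ⟨i, hi⟩, t, by simpa using ht⟩)
  refine ⟨q, fun i => if h : i ∈ B then g' (e.symm ⟨i, h⟩) else 0, hq, ?_, ?_, ?_⟩
  · intro i hi
    simp only [hi, dite_true]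
    exact hg' _
  · intro i hi t
    simp only [hi, dite_true]
    have := hgq (e.symm ⟨i, hi⟩) t
    simpa using this
  · intro t
    obtain ⟨i, hi⟩ := hcz t
    refine ⟨e i, (e i).2, ?_⟩
    simpa using hi

theorem prod_ne {ι : Type} (s : Finset ι) (f : ι → ℂ → ℂ) (hf : ∀ i, Differentiable ℂ (f i))
    (hne : ∀ i ∈ s, ∃ z, f i z ≠ 0) : ∃ z, ∏ i ∈ s, f i z ≠ 0 := by
  classical
  induction s using Finset.induction_on with
  | empty => exact ⟨0, by simp⟩
  | insert a s ha ih =>
    obtain ⟨z2, hz2⟩ := ih (fun i hi => hne i (Finset.mem_insert_of_mem hi))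
    obtain ⟨z1, hz1⟩ := hne a (Finset.mem_insert_self _ _)
    by_contra hcon
    push Not at hcon
    have h1 : Differentiable ℂ (fun z => ∏ i ∈ s, f i z) :=
      Differentiable.fun_finsetProd fun i _ => hf i
    rcases ent_eq_zero_or (hf a) h1 (fun z => by
      have := hcon z
      rwa [Finset.prod_insert ha] at this) with h | h
    · exact hz1 (congrFun h z1)
    · exact hz2 (congrFun h z2)

/-- the change of one coordinate across a set -/
theorem cross {T : Type} [Fintype T] [DecidableEq T] {A : T → Type} (κ : Set (∀ t, A t))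
    (h1 : κ.Nonempty) (h2 : κ ≠ Set.univ) : ∃ a ∈ κ, ∃ t α, Function.update a t α ∉ κ := by
  classical
  by_contra hcon
  push Not at hcon
  obtain ⟨a, ha⟩ := h1
  apply h2
  rw [Set.eq_univ_iff_forall]
  intro b
  have key : ∀ s : Finset T, s.piecewise b a ∈ κ := by
    intro s
    induction s using Finset.induction_on with
    | empty => simpa using ha
    | insert t s _ ih =>
      rw [Finset.piecewise_insert]
      exact hcon _ ih t (b t)
  have := key Finset.univ
  simpa using this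

end Run7.h34.OK
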